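import Pool.Agent.H468R2.MA.P_T_BF
import Pool.Agent.H468R2.MA.P_T_C
import Pool.Agent.H468R2.MA.P_T_CH
import Pool.Agent.H468R2.MA.P_T_LOC
import Pool.Agent.H468R2.MA.P_T_LOC1
import Pool.Agent.H468R2.MA.P_T_SC

/-!
Generic ergodicity of the `ℓ¹` action on `ℝ^ℕ` with respect to isomorphism of binary relations.
-/

set_option autoImplicit false

open Filter Topology

namespace Pool.Agent.K9h79.SE

open Pool.Agent.H468R2.MA in
/-- Turbulence: an `ℓ¹`-invariant Borel assignment of binary relations is constant up to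
isomorphism on a comeager set. -/
theorem erg (f : (ℕ → ℝ) → ℕ → ℕ → Bool) (hf : Measurable f)
    (hinv : ∀ x y : ℕ → ℝ, Summable (fun n => |x n - y n|) →
      ∃ σ : Equiv.Perm ℕ, ∀ i j : ℕ, f x i j = f y (σ i) (σ j)) :
    ∃ C ∈ residual (ℕ → ℝ), ∀ x ∈ C, ∀ y ∈ C,
      ∃ σ : Equiv.Perm ℕ, ∀ i j : ℕ, f x i j = f y (σ i) (σ j) := by
  have herg : T_ERG := t_T_ERG (t_T_C t_T_SC (t_T_LOC t_T_SC (t_T_LOC1 t_T_SC))) t_T_CH
  let g : (ℕ → ℝ) → RS Unit (fun _ => 2) := fun x _ a => f x (a 0) (a 1) = true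
  have hg : Hm g := by
    refine ⟨fun r a => ?_, fun x y hxy => ?_⟩
    · have h1 : Measurable fun x => f x (a 0) (a 1) :=
        (measurable_pi_apply (a 1)).comp ((measurable_pi_apply (a 0)).comp hf)
      exact h1 (measurableSet_singleton true)
    · obtain ⟨σ, hσ⟩ := hinv x y hxy
      refine ⟨σ, fun r a => ?_⟩
      change f y (σ (a 0)) (σ (a 1)) = true ↔ f x (a 0) (a 1) = true
      rw [hσ]
  obtain ⟨C, hC, h⟩ := herg Unit (fun _ => 2) g hg
  refine ⟨C, hC, fun x hx y hy => ?_⟩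
  obtain ⟨π, hπ⟩ := h x hx y hy
  refine ⟨π, fun i j => ?_⟩
  have h1 := hπ () ![i, j]
  change f y (π (![i, j] 0)) (π (![i, j] 1)) = true ↔ f x (![i, j] 0) (![i, j] 1) = true at h1
  simp only [Matrix.cons_val_zero, Matrix.cons_val_one] at h1
  rcases hb : f x i j with _ | _
  · rcases hb' : f y (π i) (π j) with _ | _
    · rfl
    · rw [hb, hb'] at h1
      simp at h1
  · exact (h1.2 hb).symm

end Pool.Agent.K9h79.SE
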