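import Pool.Agent.K9h79.SE.Sys

/-!
# Ergodicity and the averages of the characters
-/

set_option autoImplicit false

open Filter Topology MeasureTheory
open scoped ENNReal

noncomputable section

namespace Pool.Agent.K9h79.SE

/-- the characters of the torus -/
def chi (n : Fin 2 → ℤ) (p : T2) : ℂ := fourier (n 0) (p 0) * fourier (n 1) (p 1)

theorem chi_eq (n : Fin 2 → ℤ) (p : T2) : chi n p = UnitAddTorus.mFourier n p := by
  unfold chi UnitAddTorus.mFourier
  simp only [ContinuousMap.coe_mk, Fin.prod_univ_two]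

theorem cont_coord (i : Fin 2) : Continuous fun p : T2 => p i := continuous_apply i

theorem chi_cont (n : Fin 2 → ℤ) : Continuous (chi n) := by
  unfold chi
  exact ((fourier (T := 1) (n 0)).continuous.comp (cont_coord 0)).mul
    ((fourier (T := 1) (n 1)).continuous.comp (cont_coord 1))

theorem norm_fourier' (n : ℤ) (u : C1) : ‖fourier n u‖ = 1 := by
  rw [fourier_apply, Circle.norm_coe]

theorem norm_chi (n : Fin 2 → ℤ) (p : T2) : ‖chi n p‖ = 1 := by
  unfold chi
  rw [norm_mul, norm_fourier', norm_fourier', one_mul]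

theorem fourier_add'' (n : ℤ) (u v : C1) : fourier n (u + v) = fourier n u * fourier n v := by
  simp only [fourier_apply, smul_add, AddCircle.toCircle_add, Circle.coe_mul]

theorem chi_add (n : Fin 2 → ℤ) (p q : T2) : chi n (p + q) = chi n p * chi n q := by
  unfold chi
  change fourier (n 0) (p 0 + q 0) * fourier (n 1) (p 1 + q 1) = _
  rw [fourier_add'', fourier_add'']
  ring

theorem chi_zero (p : T2) : chi 0 p = 1 := by
  unfold chi
  simp

theorem mp_add (q : T2) : MeasurePreserving (fun p : T2 => p + q) (volume : Measure T2) volume := by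
  have h := measurePreserving_pi (fun _ : Fin 2 => (volume : Measure C1))
    (fun _ : Fin 2 => (volume : Measure C1)) (f := fun i u => u + q i)
    (fun i => measurePreserving_add_right volume (q i))
  exact h

theorem integral_chi (n : Fin 2 → ℤ) (hn : n ≠ 0) : ∫ p, chi n p ∂(volume : Measure T2) = 0 := by
  have h : ∃ q : T2, chi n q = -1 := by
    by_cases h0 : n 0 = 0
    · have h1 : n 1 ≠ 0 := by
        intro h1
        apply hn
        funext i
        fin_cases i
        · exact h0
        · exact h1
      refine ⟨![0, ((1 / 2 / (n 1 : ℝ) : ℝ) : C1)], ?_⟩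
      unfold chi
      have h2 := fourier_add_half_inv_index (T := 1) h1 one_pos 0
      simp only [zero_add, fourier_eval_zero] at h2
      change fourier (n 0) (0 : C1) * fourier (n 1) ((1 / 2 / (n 1 : ℝ) : ℝ) : C1) = -1
      rw [h2, fourier_eval_zero, one_mul]
    · refine ⟨![((1 / 2 / (n 0 : ℝ) : ℝ) : C1), 0], ?_⟩
      unfold chi
      have h2 := fourier_add_half_inv_index (T := 1) h0 one_pos 0
      simp only [zero_add, fourier_eval_zero] at h2
      change fourier (n 0) ((1 / 2 / (n 0 : ℝ) : ℝ) : C1) * fourier (n 1) (0 : C1) = -1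
      rw [h2, fourier_eval_zero, mul_one]
  obtain ⟨q, hq⟩ := h
  have h1 : ∫ p, chi n (p + q) ∂(volume : Measure T2) = ∫ p, chi n p ∂(volume : Measure T2) :=
    (mp_add q).integral_comp' (f := ((Homeomorph.addRight q).toMeasurableEquiv)) (chi n)
  have h2 : ∫ p, chi n (p + q) ∂(volume : Measure T2) =
      -∫ p, chi n p ∂(volume : Measure T2) := by
    rw [← integral_neg]
    refine integral_congr_ae (Eventually.of_forall fun p => ?_)
    change chi n (p + q) = -chi n p
    rw [chi_add, hq, mul_neg, mul_one]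
  rw [h1] at h2
  have h3 : (2 : ℂ) * ∫ p, chi n p ∂(volume : Measure T2) = 0 := by linear_combination h2
  simpa using h3

/-- the sum of a character along an orbit -/
def cs (S : T2 → T2) (n : Fin 2 → ℤ) (N : ℕ) (p : T2) : ℂ :=
  ∑ i ∈ Finset.range N, chi n (S^[i] p)

theorem cs_le (S : T2 → T2) (n : Fin 2 → ℤ) (N : ℕ) (p : T2) : ‖cs S n N p‖ ≤ N := by
  unfold cs
  refine (norm_sum_le _ _).trans ?_
  simp [norm_chi]

theorem cs_meas {S : T2 → T2} (hS : Measurable S) (n : Fin 2 → ℤ) (N : ℕ) :
    Measurable (cs S n N) := by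
  unfold cs
  exact Finset.measurable_sum _ fun i _ => (chi_cont n).measurable.comp (hS.iterate i)

/-- the condition on the averages of the characters -/
def Crit (S : T2 → T2) : Prop := ∀ n : Fin 2 → ℤ, n ≠ 0 → ∀ k : ℕ, ∃ N : ℕ,
  (k + 1 : ℝ) * ∫ p, ‖cs S n N p‖ ^ 2 ∂(volume : Measure T2) < (N : ℝ) ^ 2

theorem ergodic_of_crit {S : T2 → T2} (hS : MeasurePreserving S (volume : Measure T2) volume)
    (h : Crit S) : Ergodic S (volume : Measure T2) := by
  refine ⟨hS, ⟨fun E hE hSE => ?_⟩⟩
  -- the integrals of the characters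
  have h1 : ∀ n : Fin 2 → ℤ, n ≠ 0 → ∫ p in E, chi n p ∂(volume : Measure T2) = 0 := by
    intro n hn
    have hit : ∀ i : ℕ, ∫ p in E, chi n (S^[i] p) ∂(volume : Measure T2) =
        ∫ p in E, chi n p ∂(volume : Measure T2) := by
      intro i
      have h2 : (S^[i]) ⁻¹' E = E := by
        induction i with
        | zero => rfl
        | succ i ih =>
          rw [Function.iterate_succ, Set.preimage_comp, ih, hSE]
      have h3 := (hS.iterate i).restrict_preimage hE
      rw [h2] at h3
      rw [← h3.map_eq, integral_map (hS.iterate i).measurable.aemeasurable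
        (chi_cont n).aestronglyMeasurable]
      rw [h3.map_eq]
    have hcs : ∀ N : ℕ, (N : ℂ) * ∫ p in E, chi n p ∂(volume : Measure T2) =
        ∫ p in E, cs S n N p ∂(volume : Measure T2) := by
      intro N
      unfold cs
      rw [integral_finsetSum]
      · simp [hit]
      · intro i _
        refine Integrable.of_bound (C := 1) ?_ ?_
        · exact ((chi_cont n).measurable.comp (hS.measurable.iterate i)).aestronglyMeasurable
        · exact Eventually.of_forall fun p => (norm_chi n _).le
    by_contra hne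
    have hpos : 0 < ‖∫ p in E, chi n p ∂(volume : Measure T2)‖ := norm_pos_iff.2 hne
    set c := ‖∫ p in E, chi n p ∂(volume : Measure T2)‖ with hc
    obtain ⟨k, hk⟩ := exists_nat_gt (1 / c ^ 2)
    obtain ⟨N, hN⟩ := h n hn k
    have h4 : (N : ℝ) * c ≤ ∫ p, ‖cs S n N p‖ ∂(volume : Measure T2) := by
      calc (N : ℝ) * c = ‖(N : ℂ) * ∫ p in E, chi n p ∂(volume : Measure T2)‖ := by
            rw [norm_mul, Complex.norm_natCast]
        _ = ‖∫ p in E, cs S n N p ∂(volume : Measure T2)‖ := by rw [hcs]
        _ ≤ ∫ p in E, ‖cs S n N p‖ ∂(volume : Measure T2) := norm_integral_le_integral_norm _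
        _ ≤ ∫ p, ‖cs S n N p‖ ∂(volume : Measure T2) := by
            refine setIntegral_le_integral ?_ (Eventually.of_forall fun p => norm_nonneg _)
            refine Integrable.of_bound (C := N) ?_ ?_
            · exact (cs_meas hS.measurable n N).norm.aestronglyMeasurable
            · exact Eventually.of_forall fun p => by
                rw [norm_norm]; exact cs_le S n N p
    have h5 : (∫ p, ‖cs S n N p‖ ∂(volume : Measure T2)) ^ 2 ≤
        ∫ p, ‖cs S n N p‖ ^ 2 ∂(volume : Measure T2) := by
      have hconv : ConvexOn ℝ Set.univ (fun t : ℝ => t ^ 2) := Even.convexOn_pow (by decide)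
      refine hconv.map_integral_le (continuous_pow 2).continuousOn isClosed_univ
        (Eventually.of_forall fun _ => Set.mem_univ _) ?_ ?_
      · refine Integrable.of_bound (C := N) ?_ ?_
        · exact (cs_meas hS.measurable n N).norm.aestronglyMeasurable
        · exact Eventually.of_forall fun p => by
            rw [norm_norm]; exact cs_le S n N p
      · refine Integrable.of_bound (C := (N : ℝ) ^ 2) ?_ ?_
        · exact ((cs_meas hS.measurable n N).norm.pow_const 2).aestronglyMeasurable
        · refine Eventually.of_forall fun p => ?_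
          simp only [Function.comp_apply, norm_pow, norm_norm]
          exact pow_le_pow_left₀ (norm_nonneg _) (cs_le S n N p) 2
    have h6 : ((N : ℝ) * c) ^ 2 ≤ ∫ p, ‖cs S n N p‖ ^ 2 ∂(volume : Measure T2) :=
      (pow_le_pow_left₀ (by positivity) h4 2).trans h5
    have h7 : (1 : ℝ) < (k + 1) * c ^ 2 := by
      rw [div_lt_iff₀ (by positivity)] at hk
      nlinarith [sq_nonneg c]
    have h8 : (N : ℝ) ^ 2 * ((k + 1) * c ^ 2) < (N : ℝ) ^ 2 := by
      calc (N : ℝ) ^ 2 * ((k + 1) * c ^ 2) = (k + 1) * ((N : ℝ) * c) ^ 2 := by ring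
        _ ≤ (k + 1) * ∫ p, ‖cs S n N p‖ ^ 2 ∂(volume : Measure T2) := by gcongr
        _ < _ := hN
    nlinarith [sq_nonneg (N : ℝ)]
  -- all continuous functions
  have h2 : ∀ f : C(T2, ℂ), ∫ p in E, f p ∂(volume : Measure T2) =
      ((volume : Measure T2).real E : ℂ) * ∫ p, f p ∂(volume : Measure T2) := by
    intro f
    have hint : ∀ (f : C(T2, ℂ)) (μ : Measure T2) [IsFiniteMeasure μ], Integrable f μ := by
      intro f μ _
      exact (BoundedContinuousFunction.mkOfCompact f).integrable μ
    have hspan : ∀ h ∈ Submodule.span ℂ (Set.range (UnitAddTorus.mFourier (d := Fin 2))),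
        ∫ p in E, (h : C(T2, ℂ)) p ∂(volume : Measure T2) =
          ((volume : Measure T2).real E : ℂ) * ∫ p, (h : C(T2, ℂ)) p ∂(volume : Measure T2) := by
      intro h hh
      induction hh using Submodule.span_induction with
      | mem f hf =>
        obtain ⟨n, rfl⟩ := hf
        have h3 : ∀ μ : Measure T2, ∫ p, (UnitAddTorus.mFourier n : C(T2, ℂ)) p ∂μ =
            ∫ p, chi n p ∂μ := by
          intro μ
          refine integral_congr_ae (Eventually.of_forall fun p => ?_)
          exact (chi_eq n p).symm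
        rw [h3, h3]
        by_cases hn : n = 0
        · subst hn
          simp only [chi_zero, integral_const, MeasurableSet.univ, measureReal_restrict_apply,
            Set.univ_inter, Complex.real_smul, mul_one, probReal_univ, Complex.ofReal_one]
        · rw [h1 n hn, integral_chi n hn, mul_zero]
      | zero =>
        change ∫ p in E, (0 : ℂ) ∂(volume : Measure T2) =
          ((volume : Measure T2).real E : ℂ) * ∫ p, (0 : ℂ) ∂(volume : Measure T2)
        simp
      | add f g _ _ hf hg =>
        have e1 : ∀ μ : Measure T2, ∀ [IsFiniteMeasure μ], ∫ p, (f + g : C(T2, ℂ)) p ∂μ =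
            ∫ p, (f : C(T2, ℂ)) p ∂μ + ∫ p, (g : C(T2, ℂ)) p ∂μ := by
          intro μ _
          exact integral_add (hint f μ) (hint g μ)
        rw [e1, e1, hf, hg, mul_add]
      | smul a f _ hf =>
        have e1 : ∀ μ : Measure T2, ∀ [IsFiniteMeasure μ], ∫ p, (a • f : C(T2, ℂ)) p ∂μ =
            a * ∫ p, (f : C(T2, ℂ)) p ∂μ := by
          intro μ _
          exact integral_const_mul a _
        rw [e1, e1, hf]
        ring
    by_contra hne
    have hpos : 0 < ‖∫ p in E, f p ∂(volume : Measure T2) -
      ((volume : Measure T2).real E : ℂ) * ∫ p, f p ∂(volume : Measure T2)‖ :=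
      norm_pos_iff.2 (sub_ne_zero.2 hne)
    set c := ‖∫ p in E, f p ∂(volume : Measure T2) -
      ((volume : Measure T2).real E : ℂ) * ∫ p, f p ∂(volume : Measure T2)‖ with hc
    have hf : (f : C(UnitAddTorus (Fin 2), ℂ)) ∈
        closure ((Submodule.span ℂ (Set.range (UnitAddTorus.mFourier (d := Fin 2))) :
          Submodule ℂ C(UnitAddTorus (Fin 2), ℂ)) : Set C(UnitAddTorus (Fin 2), ℂ)) := by
      rw [← Submodule.topologicalClosure_coe, UnitAddTorus.span_mFourier_closure_eq_top]
      trivial
    obtain ⟨h, hh2, hd⟩ : ∃ h : C(T2, ℂ), (∫ p in E, h p ∂(volume : Measure T2) =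
        ((volume : Measure T2).real E : ℂ) * ∫ p, h p ∂(volume : Measure T2)) ∧
        dist f h < c / 2 := by
      obtain ⟨h, hh, hd⟩ := Metric.mem_closure_iff.1 hf (c / 2) (by positivity)
      exact ⟨h, hspan h hh, hd⟩
    set δ := dist f h with hδ
    have hfh : ∀ p : T2, ‖f p - h p‖ ≤ δ := by
      intro p
      rw [← dist_eq_norm]
      exact ContinuousMap.dist_apply_le_dist (f := f) (g := h) p
    have e1 : ∀ μ : Measure T2, ∀ [IsFiniteMeasure μ], ∫ p, f p ∂μ =
        ∫ p, h p ∂μ + ∫ p, (f p - h p) ∂μ := by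
      intro μ _
      rw [integral_sub (hint f μ) (hint h μ)]
      ring
    have hE1 : (volume : Measure T2).real E ≤ 1 := measureReal_le_one
    have hE0 : 0 ≤ (volume : Measure T2).real E := measureReal_nonneg
    have hδ0 : 0 ≤ δ := dist_nonneg
    have b1 : ‖∫ p in E, (f p - h p) ∂(volume : Measure T2)‖ ≤ δ := by
      have := norm_integral_le_of_norm_le_const (μ := (volume : Measure T2).restrict E)
        (Eventually.of_forall hfh)
      rw [measureReal_restrict_apply_univ] at this
      nlinarith
    have b2 : ‖∫ p, (f p - h p) ∂(volume : Measure T2)‖ ≤ δ := by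
      have := norm_integral_le_of_norm_le_const (μ := (volume : Measure T2))
        (Eventually.of_forall hfh)
      rw [probReal_univ, mul_one] at this
      exact this
    have e2 : ∫ p in E, f p ∂(volume : Measure T2) -
      ((volume : Measure T2).real E : ℂ) * ∫ p, f p ∂(volume : Measure T2) =
        ∫ p in E, (f p - h p) ∂(volume : Measure T2) -
        ((volume : Measure T2).real E : ℂ) *
          ∫ p, (f p - h p) ∂(volume : Measure T2) := by
      rw [e1 (volume.restrict E), e1 volume, hh2]
      ring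
    have b3 : c ≤ δ + δ := by
      rw [hc, e2]
      refine (norm_sub_le _ _).trans (add_le_add b1 ?_)
      rw [norm_mul, Complex.norm_real, Real.norm_of_nonneg hE0]
      nlinarith [norm_nonneg (∫ p, (f p - h p) ∂(volume : Measure T2))]
    linarith
  -- the two measures agree
  have h3 : (volume : Measure T2).restrict E = (volume E) • (volume : Measure T2) := by
    have hfin : IsFiniteMeasure ((volume E) • (volume : Measure T2)) :=
      ⟨by rw [Measure.smul_apply, measure_univ, smul_eq_mul, mul_one]; exact measure_lt_top _ _⟩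
    refine ext_of_forall_integral_eq_of_IsFiniteMeasure fun f => ?_
    have h4 := h2 ⟨fun p => ((f p : ℝ) : ℂ), Complex.continuous_ofReal.comp f.continuous⟩
    simp only [ContinuousMap.coe_mk] at h4
    rw [integral_complex_ofReal, integral_complex_ofReal] at h4
    rw [integral_smul_measure, smul_eq_mul]
    exact_mod_cast h4
  have h4 := congrArg (fun μ : Measure T2 => μ Eᶜ) h3
  simp only [Measure.smul_apply, smul_eq_mul] at h4
  rw [Measure.restrict_apply hE.compl, Set.compl_inter_self, measure_empty] at h4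
  rw [Filter.eventuallyConst_set']
  rcases mul_eq_zero.1 h4.symm with h5 | h5
  · left
    exact ae_eq_empty.2 h5
  · right
    exact ae_eq_univ.2 h5

open scoped InnerProductSpace in
theorem crit_of_ergodic {S : T2 → T2} (h : Ergodic S (volume : Measure T2)) : Crit S := by
  intro n hn k
  have hS := h.toMeasurePreserving
  have hchi : MemLp (chi n) 2 (volume : Measure T2) :=
    MemLp.of_bound (chi_cont n).aestronglyMeasurable 1
      (Eventually.of_forall fun p => (norm_chi n p).le)
  set x : Lp ℂ 2 (volume : Measure T2) := hchi.toLp (chi n) with hx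
  set U := (Lp.compMeasurePreservingₗᵢ ℂ (E := ℂ) (p := 2) S hS).toContinuousLinearMap with hU
  have hU1 : ‖U‖ ≤ 1 := LinearIsometry.norm_toContinuousLinearMap_le _
  have h1 := U.tendsto_birkhoffAverage_orthogonalProjection hU1 x
  have h2 : (U.eqLocus (1 : Lp ℂ 2 (volume : Measure T2) →L[ℂ]
      Lp ℂ 2 (volume : Measure T2))).orthogonalProjectionOnto x = 0 := by
    rw [Submodule.orthogonalProjectionOnto_eq_zero_iff, Submodule.mem_orthogonal]
    intro y hy
    have hy1 : Lp.compMeasurePreserving S hS y = y := hy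
    have hy2 := Lp.coeFn_compMeasurePreserving y hS
    rw [hy1] at hy2
    obtain ⟨c, hc⟩ := h.ae_eq_const_of_ae_eq_comp_ae (Lp.aestronglyMeasurable y) hy2.symm
    rw [L2.inner_def]
    have h3 : ∫ p, ⟪y p, x p⟫_ℂ ∂(volume : Measure T2) =
        ∫ p, chi n p * (starRingEnd ℂ) c ∂(volume : Measure T2) := by
      refine integral_congr_ae ?_
      filter_upwards [hc, hchi.coeFn_toLp] with p hp1 hp2
      rw [hp1, hx, hp2]
      simp [RCLike.inner_apply]
    rw [h3, integral_mul_const, integral_chi n hn, zero_mul]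
  rw [h2] at h1
  have h3 : Tendsto (fun N => ‖birkhoffAverage ℂ U _root_.id N x‖) atTop (𝓝 0) := by
    have := h1.norm
    simpa using this
  have hit : ∀ i : ℕ, (U^[i]) x =ᵐ[volume] chi n ∘ S^[i] := by
    intro i
    have e1 : (U : Lp ℂ 2 (volume : Measure T2) → Lp ℂ 2 (volume : Measure T2)) =
        Lp.compMeasurePreserving S hS := rfl
    rw [e1, Lp.compMeasurePreserving_iterate]
    refine (Lp.coeFn_compMeasurePreserving x (hS.iterate i)).trans ?_
    exact (hS.iterate i).quasiMeasurePreserving.ae_eq_comp hchi.coeFn_toLp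
  have hsum : ∀ N : ℕ, ‖∑ i ∈ Finset.range N, (U^[i]) x‖ ^ 2 =
      ∫ p, ‖cs S n N p‖ ^ 2 ∂(volume : Measure T2) := by
    intro N
    have e2 : ⇑(∑ i ∈ Finset.range N, (U^[i]) x) =ᵐ[volume] cs S n N := by
      refine (Lp.coeFn_finsetSum _ _).trans ?_
      have : ∀ᵐ p ∂(volume : Measure T2), ∀ i ∈ Finset.range N,
          (U^[i]) x p = (chi n ∘ S^[i]) p :=
        (ae_ball_iff (Finset.range N).countable_toSet).2 fun i _ => hit i
      filter_upwards [this] with p hp
      rw [Finset.sum_apply]
      unfold cs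
      exact Finset.sum_congr rfl hp
    have e3 := inner_self_eq_norm_sq_to_K (𝕜 := ℂ) (∑ i ∈ Finset.range N, (U^[i]) x)
    rw [L2.inner_def] at e3
    have e4 : ∫ p, ⟪(∑ i ∈ Finset.range N, (U^[i]) x) p, (∑ i ∈ Finset.range N, (U^[i]) x) p⟫_ℂ
        ∂(volume : Measure T2) = ((∫ p, ‖cs S n N p‖ ^ 2 ∂(volume : Measure T2) : ℝ) : ℂ) := by
      rw [← integral_complex_ofReal]
      refine integral_congr_ae ?_
      filter_upwards [e2] with p hp
      rw [hp, inner_self_eq_norm_sq_to_K (𝕜 := ℂ)]
      simp
    rw [e4] at e3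
    apply Complex.ofReal_injective
    rw [Complex.ofReal_pow]
    exact e3.symm
  have hk : (0 : ℝ) < 1 / (k + 1) := by positivity
  have h4 : Tendsto (fun N => ‖birkhoffAverage ℂ U _root_.id N x‖ ^ 2) atTop (𝓝 0) := by
    simpa using h3.pow 2
  obtain ⟨N, hN, hN1⟩ := ((h4.eventually (gt_mem_nhds hk)).and (eventually_ge_atTop 1)).exists
  refine ⟨N, ?_⟩
  rw [← hsum]
  have hN0 : (0 : ℝ) < N := by exact_mod_cast hN1
  have h5 : ‖birkhoffAverage ℂ U _root_.id N x‖ = (N : ℝ)⁻¹ * ‖∑ i ∈ Finset.range N, (U^[i]) x‖ := by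
    unfold birkhoffAverage birkhoffSum
    rw [norm_smul, norm_inv, Complex.norm_natCast]
    rfl
  rw [h5, mul_pow, inv_pow, inv_mul_lt_iff₀ (by positivity), ] at hN
  calc (k + 1 : ℝ) * ‖∑ i ∈ Finset.range N, (U^[i]) x‖ ^ 2
      < (k + 1 : ℝ) * ((N : ℝ) ^ 2 * (1 / (k + 1))) := by gcongr
    _ = (N : ℝ) ^ 2 := by field_simp

end Pool.Agent.K9h79.SE
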