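import Pool.Agent.K9h79.SE.Num

/-!
# The cocycles
-/

set_option autoImplicit false

open Filter Topology
open scoped ContDiff

noncomputable section

namespace Pool.Agent.K9h79.SE

/-- the circle -/
abbrev C1 : Type := AddCircle (1 : ℝ)

/-- `w k u = cos (2 π Q_k u)` -/
def w (k : ℕ) (u : C1) : ℝ := (fourier (Q k : ℤ) u).re

theorem w_coe (k : ℕ) (t : ℝ) : w k (t : C1) = Real.cos (2 * Real.pi * Q k * t) := by
  unfold w
  rw [fourier_coe_apply]
  have : (2 * Real.pi * Complex.I * ((Q k : ℤ) : ℂ) * (t : ℂ) / ((1 : ℝ) : ℂ)) =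
      ((2 * Real.pi * Q k * t : ℝ) : ℂ) * Complex.I := by
    push_cast
    ring
  rw [this, Complex.exp_ofReal_mul_I_re]

theorem w_cont (k : ℕ) : Continuous (w k) :=
  Complex.continuous_re.comp (fourier (T := 1) (Q k : ℤ)).continuous

theorem w_le (k : ℕ) (u : C1) : |w k u| ≤ 1 := by
  unfold w
  refine (Complex.abs_re_le_norm _).trans ?_
  rw [fourier_apply, Circle.norm_coe]

/-- the base point -/
def A : C1 := (α : ℝ)

/-- the base point -/
def B : C1 := (β : ℝ)

/-- the elementary coboundary -/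
def g (k : ℕ) (u : C1) : ℝ := w k (u + A) - w k u

theorem g_cont (k : ℕ) : Continuous (g k) :=
  ((w_cont k).comp (continuous_id.add continuous_const)).sub (w_cont k)

/-- the size of the elementary coboundary -/
def dd (k : ℕ) : ℝ := 2 * Real.pi * (Q k * (2 * (1 / 2 : ℝ) ^ s (2 * k + 2)))

theorem dd_nonneg (k : ℕ) : 0 ≤ dd k := by unfold dd; positivity

theorem g_coe (k : ℕ) (t : ℝ) : g k (t : C1) =
    (Real.cos (2 * Real.pi * Q k * α) - 1) * Real.cos (2 * Real.pi * Q k * t) +
      (-Real.sin (2 * Real.pi * Q k * α)) * Real.sin (2 * Real.pi * Q k * t) := by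
  unfold g A
  rw [← AddCircle.coe_add, w_coe, w_coe, mul_add, Real.cos_add]
  ring

theorem cos_sub_one_le (k : ℕ) : |Real.cos (2 * Real.pi * Q k * α) - 1| ≤ dd k := by
  obtain ⟨z, hz⟩ := Qα k
  have h1 : Real.cos (2 * Real.pi * Q k * α) = Real.cos (2 * Real.pi * (Q k * α - z)) := by
    have : 2 * Real.pi * Q k * α = 2 * Real.pi * (Q k * α - z) + z * (2 * Real.pi) := by ring
    rw [this, Real.cos_add_int_mul_two_pi]
  rw [h1]
  have h2 : |Real.cos (2 * Real.pi * (Q k * α - z)) - Real.cos 0| ≤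
      |2 * Real.pi * (Q k * α - z) - 0| := by
    have := Real.lipschitzWith_cos.dist_le_mul (2 * Real.pi * (Q k * α - z)) 0
    simpa [Real.dist_eq] using this
  rw [Real.cos_zero, sub_zero, abs_mul, abs_of_pos (by positivity : 0 < 2 * Real.pi)] at h2
  exact h2.trans (mul_le_mul_of_nonneg_left hz (by positivity))

theorem sin_le (k : ℕ) : |-Real.sin (2 * Real.pi * Q k * α)| ≤ dd k := by
  obtain ⟨z, hz⟩ := Qα k
  have h1 : Real.sin (2 * Real.pi * Q k * α) = Real.sin (2 * Real.pi * (Q k * α - z)) := by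
    have : 2 * Real.pi * Q k * α = 2 * Real.pi * (Q k * α - z) + z * (2 * Real.pi) := by ring
    rw [this, Real.sin_add_int_mul_two_pi]
  rw [h1, abs_neg]
  have h2 : |Real.sin (2 * Real.pi * (Q k * α - z)) - Real.sin 0| ≤
      |2 * Real.pi * (Q k * α - z) - 0| := by
    have := Real.lipschitzWith_sin.dist_le_mul (2 * Real.pi * (Q k * α - z)) 0
    simpa [Real.dist_eq] using this
  rw [Real.sin_zero, sub_zero, sub_zero, abs_mul,
    abs_of_pos (by positivity : 0 < 2 * Real.pi)] at h2
  exact h2.trans (mul_le_mul_of_nonneg_left hz (by positivity))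

theorem coe_surj (u : C1) : ∃ t : ℝ, (t : C1) = u := QuotientAddGroup.mk_surjective u

theorem g_le (k : ℕ) (u : C1) : |g k u| ≤ 2 * dd k := by
  obtain ⟨t, rfl⟩ := coe_surj u
  rw [g_coe]
  refine (abs_add_le ((Real.cos (2 * Real.pi * Q k * α) - 1) * Real.cos (2 * Real.pi * Q k * t))
      ((-Real.sin (2 * Real.pi * Q k * α)) * Real.sin (2 * Real.pi * Q k * t))).trans ?_
  rw [abs_mul, abs_mul, show 2 * dd k = dd k + dd k from two_mul _]
  refine add_le_add ?_ ?_
  · exact (mul_le_mul (cos_sub_one_le k) (Real.abs_cos_le_one _) (abs_nonneg _)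
      (dd_nonneg k)).trans (by rw [mul_one])
  · exact (mul_le_mul (sin_le k) (Real.abs_sin_le_one _) (abs_nonneg _)
      (dd_nonneg k)).trans (by rw [mul_one])

/-- summability of the derivatives -/
theorem summ (m : ℕ) : Summable fun k => (Q k : ℝ) ^ m * (1 / 2 : ℝ) ^ s (2 * k + 2) := by
  refine Summable.of_norm_bounded_eventually_nat (g := fun k => (1 / 2 : ℝ) ^ k)
    summable_geometric_two ?_
  filter_upwards [eventually_ge_atTop m] with k hk
  rw [Real.norm_of_nonneg (by positivity)]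
  unfold Q
  push_cast
  have h1 : s (2 * k) * m + k ≤ s (2 * k + 2) := by
    have h2 : s (2 * k + 2) = (2 * k + 1 + 3) * s (2 * k + 1) := s_succ (2 * k + 1)
    have h3 : s (2 * k + 1) = (2 * k + 3) * s (2 * k) := s_succ (2 * k)
    have h4 := s_pos (2 * k)
    have h5 : s (2 * k) * m ≤ s (2 * k) * k := Nat.mul_le_mul_left _ hk
    have h6 : k ≤ s (2 * k) * k := Nat.le_mul_of_pos_left _ h4
    rw [h2, h3]
    nlinarith [Nat.zero_le (k * k * s (2 * k)), Nat.zero_le (k * s (2 * k))]
  obtain ⟨r, hr⟩ := Nat.exists_eq_add_of_le h1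
  rw [hr, pow_add, pow_add, ← pow_mul, ← mul_assoc, ← mul_assoc, ← mul_pow]
  norm_num
  exact pow_le_one₀ (by norm_num) (by norm_num)

theorem summ_dd (m : ℕ) : Summable fun k => (2 * Real.pi * (Q k : ℝ)) ^ m * (2 * dd k) := by
  have h := (summ (m + 1)).mul_left ((2 * Real.pi) ^ m * (2 * (2 * Real.pi * 2)))
  refine h.congr fun k => ?_
  unfold dd
  rw [mul_pow]
  ring

theorem summable_dd : Summable fun k => 2 * dd k := by
  have h := summ_dd 0
  simpa using h

/-- the modulation of the coefficients -/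
def φ (t : ℝ) : ℝ := Real.sin t / 4

theorem φ_cont : Continuous φ := by unfold φ; fun_prop

theorem φ_le (t : ℝ) : |φ t| ≤ 1 := by
  unfold φ
  rw [abs_div]
  have := Real.abs_sin_le_one t
  have h4 : |(4 : ℝ)| = 4 := by norm_num
  rw [h4]
  linarith

theorem φ_zero : φ 0 = 0 := by unfold φ; simp

theorem φ_lip (a b : ℝ) : |φ a - φ b| ≤ |a - b| := by
  unfold φ
  have h := Real.lipschitzWith_sin.dist_le_mul a b
  rw [Real.dist_eq, Real.dist_eq, NNReal.coe_one, one_mul] at h
  rw [← sub_div, abs_div]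
  have h4 : |(4 : ℝ)| = 4 := by norm_num
  rw [h4]
  have := abs_nonneg (Real.sin a - Real.sin b)
  linarith

/-- the cocycle -/
def F (x : ℕ → ℝ) (u : C1) : ℝ := ∑' k, φ (x k) * g k u

theorem term_le (x : ℕ → ℝ) (k : ℕ) (u : C1) : ‖φ (x k) * g k u‖ ≤ 2 * dd k := by
  rw [Real.norm_eq_abs, abs_mul]
  calc |φ (x k)| * |g k u| ≤ 1 * (2 * dd k) :=
        mul_le_mul (φ_le _) (g_le k u) (abs_nonneg _) zero_le_one
    _ = 2 * dd k := one_mul _

theorem summable_F (x : ℕ → ℝ) (u : C1) : Summable fun k => φ (x k) * g k u :=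
  Summable.of_norm_bounded summable_dd fun k => term_le x k u

theorem F_cont : Continuous fun p : (ℕ → ℝ) × C1 => F p.1 p.2 := by
  unfold F
  refine continuous_tsum (fun k => ?_) summable_dd (fun k p => term_le p.1 k p.2)
  exact (φ_cont.comp ((continuous_apply k).comp continuous_fst)).mul
    ((g_cont k).comp continuous_snd)

theorem F_cont' (x : ℕ → ℝ) : Continuous (F x) := by
  have h : Continuous fun u : C1 => ((x, u) : (ℕ → ℝ) × C1) :=
    continuous_const.prodMk continuous_id
  have h2 := F_cont.comp h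
  simp only [Function.comp_def] at h2
  exact h2

/-- the transfer function -/
def H (x y : ℕ → ℝ) (u : C1) : ℝ := ∑' k, (φ (x k) - φ (y k)) * w k u

theorem H_term (x y : ℕ → ℝ) (k : ℕ) (u : C1) : ‖(φ (x k) - φ (y k)) * w k u‖ ≤ |x k - y k| := by
  rw [Real.norm_eq_abs, abs_mul]
  calc |φ (x k) - φ (y k)| * |w k u| ≤ |x k - y k| * 1 :=
        mul_le_mul (φ_lip _ _) (w_le k u) (abs_nonneg _) (abs_nonneg _)
    _ = _ := mul_one _

theorem H_cont (x y : ℕ → ℝ) (h : Summable fun n => |x n - y n|) : Continuous (H x y) := by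
  unfold H
  exact continuous_tsum (fun k => continuous_const.mul (w_cont k)) h (fun k u => H_term x y k u)

theorem F_sub (x y : ℕ → ℝ) (h : Summable fun n => |x n - y n|) (u : C1) :
    F x u - F y u = H x y (u + A) - H x y u := by
  unfold F H
  rw [← (summable_F x u).tsum_sub (summable_F y u),
    ← (Summable.of_norm_bounded h fun k => H_term x y k (u + A)).tsum_sub
      (Summable.of_norm_bounded h fun k => H_term x y k u)]
  refine tsum_congr fun k => ?_
  unfold g
  ring

theorem F_zero (u : C1) : F 0 u = 0 := by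
  unfold F
  simp [φ_zero]

/-- derivatives of trigonometric monomials -/
theorem iter_trig (c : ℝ) (m : ℕ) : ∀ a b : ℝ, ∃ a' b' : ℝ,
    |a'| + |b'| ≤ |c| ^ m * (|a| + |b|) ∧
    iteratedDeriv m (fun t => a * Real.cos (c * t) + b * Real.sin (c * t)) =
      fun t => a' * Real.cos (c * t) + b' * Real.sin (c * t) := by
  induction m with
  | zero =>
    intro a b
    refine ⟨a, b, by simp, ?_⟩
    rw [iteratedDeriv_zero]
  | succ m ih =>
    intro a b
    have h1 : deriv (fun t => a * Real.cos (c * t) + b * Real.sin (c * t)) =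
        fun t => (b * c) * Real.cos (c * t) + (-(a * c)) * Real.sin (c * t) := by
      funext t
      have h2 : HasDerivAt (fun t => a * Real.cos (c * t) + b * Real.sin (c * t))
          (a * (-Real.sin (c * t) * c) + b * (Real.cos (c * t) * c)) t := by
        have h3 : HasDerivAt (fun t : ℝ => c * t) c t := by
          simpa using (hasDerivAt_id t).const_mul c
        exact (h3.cos.const_mul a).add (h3.sin.const_mul b)
      rw [h2.deriv]
      ring
    obtain ⟨a', b', h2, h3⟩ := ih (b * c) (-(a * c))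
    refine ⟨a', b', h2.trans ?_, ?_⟩
    · rw [abs_neg, abs_mul, abs_mul, pow_succ]
      nlinarith [pow_nonneg (abs_nonneg c) m]
    · rw [iteratedDeriv_succ', h1, h3]

/-- the cocycle is smooth -/
theorem F_smooth (x : ℕ → ℝ) : ContDiff ℝ ∞ fun t : ℝ => F x (t : C1) := by
  unfold F
  refine contDiff_tsum (𝕜 := ℝ) (N := ⊤)
    (v := fun m k => (2 * Real.pi * (Q k : ℝ)) ^ m * (2 * dd k)) ?_ ?_ ?_
  · intro k
    have h1 : (fun t : ℝ => φ (x k) * g k (t : C1)) = fun t : ℝ => φ (x k) *
      ((Real.cos (2 * Real.pi * Q k * α) - 1) * Real.cos (2 * Real.pi * Q k * t) +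
      (-Real.sin (2 * Real.pi * Q k * α)) * Real.sin (2 * Real.pi * Q k * t)) := by
      funext t
      rw [g_coe]
    rw [h1]
    fun_prop
  · intro m _
    exact summ_dd m
  · intro m k t _
    rw [norm_iteratedFDeriv_eq_norm_iteratedDeriv]
    have h1 : (fun t : ℝ => φ (x k) * g k (t : C1)) = fun t : ℝ =>
      (φ (x k) * (Real.cos (2 * Real.pi * Q k * α) - 1)) * Real.cos ((2 * Real.pi * Q k) * t) +
      (φ (x k) * (-Real.sin (2 * Real.pi * Q k * α))) * Real.sin ((2 * Real.pi * Q k) * t) := by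
      funext t
      rw [g_coe]
      ring
    obtain ⟨a', b', h2, h3⟩ := iter_trig (2 * Real.pi * Q k) m
      (φ (x k) * (Real.cos (2 * Real.pi * Q k * α) - 1))
      (φ (x k) * (-Real.sin (2 * Real.pi * Q k * α)))
    rw [h1, h3]
    rw [abs_of_nonneg (by positivity : (0 : ℝ) ≤ 2 * Real.pi * Q k)] at h2
    have h4 : |φ (x k) * (Real.cos (2 * Real.pi * Q k * α) - 1)| +
        |φ (x k) * (-Real.sin (2 * Real.pi * Q k * α))| ≤ 2 * dd k := by
      rw [abs_mul, abs_mul, show 2 * dd k = dd k + dd k from two_mul _]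
      refine add_le_add ?_ ?_
      · exact (mul_le_mul (φ_le _) (cos_sub_one_le k) (abs_nonneg _) zero_le_one).trans
          (by rw [one_mul])
      · exact (mul_le_mul (φ_le _) (sin_le k) (abs_nonneg _) zero_le_one).trans
          (by rw [one_mul])
    calc ‖a' * Real.cos (2 * Real.pi * Q k * t) + b' * Real.sin (2 * Real.pi * Q k * t)‖
        ≤ |a'| * 1 + |b'| * 1 := by
          rw [Real.norm_eq_abs]
          refine (abs_add_le (a' * Real.cos (2 * Real.pi * Q k * t))
            (b' * Real.sin (2 * Real.pi * Q k * t))).trans ?_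
          rw [abs_mul, abs_mul]
          gcongr
          · exact Real.abs_cos_le_one _
          · exact Real.abs_sin_le_one _
      _ = |a'| + |b'| := by ring
      _ ≤ _ := h2
      _ ≤ _ := by gcongr

end Pool.Agent.K9h79.SE
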