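import Pool.Agent.K9h79.SE.ErgCrit

/-!
# The skew products are generically ergodic
-/

set_option autoImplicit false

open Filter Topology MeasureTheory

noncomputable section

namespace Pool.Agent.K9h79.SE

theorem erg_of_isom {S T' : T2 → T2} (hS : MeasurePreserving S (volume : Measure T2) volume)
    (h : Isom S T') (hT : Ergodic T' (volume : Measure T2)) : Ergodic S (volume : Measure T2) := by
  obtain ⟨φ, ψ, hφ, hψ, h1, h2, h3⟩ := h
  refine ⟨hS, ⟨fun E hE hSE => ?_⟩⟩
  rw [eventuallyConst_set']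
  -- `ψ ∘ T' = S ∘ ψ`
  have h4 : ψ ∘ T' =ᵐ[volume] S ∘ ψ := by
    have e1 := hψ.quasiMeasurePreserving.ae (p := fun p => (φ ∘ S) p = (T' ∘ φ) p) h3
    have e2 := (hS.comp hψ).quasiMeasurePreserving.ae (p := fun p => (ψ ∘ φ) p = id p) h1
    have e3 := h2
    filter_upwards [e1, e2, e3] with p q1 q2 q3
    simp only [Function.comp_apply, id] at q1 q2 q3 ⊢
    rw [q3] at q1
    rw [← q1, q2]
  have h5 : T' ⁻¹' (ψ ⁻¹' E) =ᵐ[volume] ψ ⁻¹' E := by
    have : ψ ⁻¹' E = (S ∘ ψ) ⁻¹' E := by rw [Set.preimage_comp, hSE]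
    conv_rhs => rw [this]
    filter_upwards [h4] with p hp
    change (ψ (T' p) ∈ E) = (S (ψ p) ∈ E)
    have : ψ (T' p) = S (ψ p) := hp
    rw [this]
  have h6 := hT.quasiErgodic.ae_empty_or_univ₀ (hE.preimage hψ.measurable).nullMeasurableSet h5
  rcases h6 with h6 | h6
  · left
    rw [ae_eq_empty] at h6 ⊢
    rwa [hψ.measure_preimage hE.nullMeasurableSet] at h6
  · right
    rw [ae_eq_univ] at h6 ⊢
    rw [← Set.preimage_compl, hψ.measure_preimage hE.compl.nullMeasurableSet] at h6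
    exact h6

theorem T_joint (i : ℕ) : Continuous fun q : (ℕ → ℝ) × T2 => (T q.1)^[i] q.2 := by
  have h1 : (fun q : (ℕ → ℝ) × T2 => (T q.1)^[i] q.2) =
      fun q : (ℕ → ℝ) × T2 => (![q.2 0 + i • A, q.2 1 + (i • B +
        ((Fn q.1 i (q.2 0) : ℝ) : C1))] : T2) := by
    funext q
    rw [T_iter]
    rfl
  rw [h1]
  have c0 : Continuous fun q : (ℕ → ℝ) × T2 => q.2 0 := (cont_coord 0).comp continuous_snd
  have c1 : Continuous fun q : (ℕ → ℝ) × T2 => q.2 1 := (cont_coord 1).comp continuous_snd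
  have c2 : Continuous fun q : (ℕ → ℝ) × T2 => Fn q.1 i (q.2 0) := by
    have h2 := (Fn_cont i).comp (continuous_fst.prodMk c0)
    simp only [Function.comp_def] at h2
    exact h2
  refine continuous_pi fun j => ?_
  fin_cases j
  · exact c0.add continuous_const
  · exact c1.add (continuous_const.add (coe_cont.comp c2))

theorem cs_cont (n : Fin 2 → ℤ) (N : ℕ) :
    Continuous fun x : ℕ → ℝ => ∫ p, ‖cs (T x) n N p‖ ^ 2 ∂(volume : Measure T2) := by
  refine continuous_of_dominated (bound := fun _ => (N : ℝ) ^ 2) ?_ ?_ (integrable_const _) ?_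
  · intro x
    exact ((cs_meas (measurePreserving_T x).measurable n N).norm.pow_const 2).aestronglyMeasurable
  · intro x
    refine Eventually.of_forall fun p => ?_
    rw [norm_pow, norm_norm]
    exact pow_le_pow_left₀ (norm_nonneg _) (cs_le _ n N p) 2
  · refine Eventually.of_forall fun p => ?_
    have h1 : Continuous fun x : ℕ → ℝ => cs (T x) n N p := by
      unfold cs
      refine continuous_finsetSum _ fun i _ => ?_
      have h2 : Continuous fun x : ℕ → ℝ => (T x)^[i] p := by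
        have h3 : Continuous fun x : ℕ → ℝ => ((x, p) : (ℕ → ℝ) × T2) := by fun_prop
        have h4 := (T_joint i).comp h3
        simp only [Function.comp_def] at h4
        exact h4
      exact (chi_cont n).comp h2
    exact h1.norm.pow 2

/-- the good parameters -/
def G : Set (ℕ → ℝ) := {x | Crit (T x)}

/-- the pieces of the set of good parameters -/
def Gp (n : Fin 2 → ℤ) (k : ℕ) : Set (ℕ → ℝ) :=
  ⋃ N : ℕ, {x | (k + 1 : ℝ) * ∫ p, ‖cs (T x) n N p‖ ^ 2 ∂(volume : Measure T2) < (N : ℝ) ^ 2}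

theorem Gp_open (n : Fin 2 → ℤ) (k : ℕ) : IsOpen (Gp n k) :=
  isOpen_iUnion fun _ => isOpen_lt (continuous_const.mul (cs_cont n _)) continuous_const

theorem G_eq : G = ⋂ n : {n : Fin 2 → ℤ // n ≠ 0}, ⋂ k : ℕ, Gp n.1 k := by
  ext x
  simp only [G, Crit, Gp, Set.mem_ofPred_eq, Set.mem_iInter, Set.mem_iUnion, Subtype.forall]

theorem G_meas : MeasurableSet G := by
  rw [G_eq]
  exact MeasurableSet.iInter fun n => MeasurableSet.iInter fun k => (Gp_open _ _).measurableSet

theorem fin_dense : Dense {x : ℕ → ℝ | ∃ K : ℕ, ∀ k, K ≤ k → x k = 0} := by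
  intro x
  refine mem_closure_of_tendsto (f := fun K : ℕ => fun k : ℕ => if k < K then x k else 0)
    (b := atTop) ?_ (Eventually.of_forall fun K => ⟨K, fun k hk => if_neg (not_lt.2 hk)⟩)
  rw [tendsto_pi_nhds]
  intro k
  refine tendsto_const_nhds.congr' ?_
  filter_upwards [eventually_gt_atTop k] with K hK
  rw [if_pos hK]

theorem fin_summable {x : ℕ → ℝ} {K : ℕ} (h : ∀ k, K ≤ k → x k = 0) :
    Summable fun n => |x n - (0 : ℕ → ℝ) n| := by
  refine summable_of_ne_finset_zero (s := Finset.range K) fun n hn => ?_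
  rw [Finset.mem_range, not_lt] at hn
  rw [h n hn]
  simp

/-- the rotation vector -/
def q0 : T2 := ![A, B]

theorem T0_iter (i : ℕ) (p : T2) : (T 0)^[i] p = p + i • q0 := by
  induction i with
  | zero => rw [zero_smul, add_zero]; rfl
  | succ i ih =>
    rw [Function.iterate_succ_apply', ih, succ_nsmul]
    refine T2_ext ?_ ?_
    · change (p + i • q0) 0 + A = (p + (i • q0 + q0)) 0
      rw [← add_assoc]
      rfl
    · change (p + i • q0) 1 + (B + ((F 0 ((p + i • q0) 0) : ℝ) : C1)) = (p + (i • q0 + q0)) 1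
      rw [F_zero, AddCircle.coe_zero, add_zero, ← add_assoc]
      rfl

theorem chi_nsmul (n : Fin 2 → ℤ) (i : ℕ) (q : T2) : chi n (i • q) = chi n q ^ i := by
  induction i with
  | zero =>
    rw [zero_smul, pow_zero]
    unfold chi
    change fourier (n 0) (0 : C1) * fourier (n 1) (0 : C1) = 1
    simp
  | succ i ih => rw [succ_nsmul, chi_add, ih, pow_succ]

theorem chi_q0 (n : Fin 2 → ℤ) (hn : n ≠ 0) : chi n q0 ≠ 1 := by
  intro h
  unfold chi at h
  change fourier (n 0) A * fourier (n 1) B = 1 at h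
  rw [fourier_apply, fourier_apply, ← Circle.coe_mul, ← AddCircle.toCircle_add,
    Circle.coe_eq_one] at h
  have h1 : (AddCircle.toCircle (n 0 • A + n 1 • B) : Circle) = AddCircle.toCircle (0 : C1) := by
    rw [h, AddCircle.toCircle_zero]
  have h2 := AddCircle.injective_toCircle (T := 1) one_ne_zero h1
  unfold A B at h2
  rw [← AddCircle.coe_zsmul, ← AddCircle.coe_zsmul, ← AddCircle.coe_add,
    AddCircle.coe_eq_zero_iff] at h2
  obtain ⟨c, hc⟩ := h2
  have h3 : (n 0 : ℝ) * α + n 1 * β = c := by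
    simp only [zsmul_eq_mul, mul_one] at hc
    exact hc.symm
  obtain ⟨h4, h5⟩ := indep h3
  apply hn
  funext i
  fin_cases i
  · exact h4
  · exact h5

theorem crit_rot : Crit (T 0) := by
  intro n hn k
  set z := chi n q0 with hz
  have hz1 : z ≠ 1 := chi_q0 n hn
  have hz0 : 0 < ‖z - 1‖ := norm_pos_iff.2 (sub_ne_zero.2 hz1)
  have hb : ∀ N p, ‖cs (T 0) n N p‖ ≤ 2 / ‖z - 1‖ := by
    intro N p
    have h1 : cs (T 0) n N p = chi n p * ∑ i ∈ Finset.range N, z ^ i := by
      unfold cs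
      rw [Finset.mul_sum]
      refine Finset.sum_congr rfl fun i _ => ?_
      rw [T0_iter, chi_add, chi_nsmul]
    rw [h1, norm_mul, norm_chi, one_mul, geom_sum_eq hz1, norm_div]
    gcongr
    refine (norm_sub_le _ _).trans ?_
    rw [norm_pow, hz, norm_chi, one_pow, norm_one]
    norm_num
  obtain ⟨N, hN⟩ := exists_nat_gt ((k + 1 : ℝ) * (2 / ‖z - 1‖) ^ 2)
  refine ⟨N, ?_⟩
  have h2 : ∫ p, ‖cs (T 0) n N p‖ ^ 2 ∂(volume : Measure T2) ≤ (2 / ‖z - 1‖) ^ 2 := by
    have h3 : ∀ p : T2, ‖‖cs (T 0) n N p‖ ^ 2‖ ≤ (2 / ‖z - 1‖) ^ 2 := by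
      intro p
      rw [norm_pow, norm_norm]
      exact pow_le_pow_left₀ (norm_nonneg _) (hb N p) 2
    have h4 := norm_integral_le_of_norm_le_const (μ := (volume : Measure T2))
      (Eventually.of_forall h3)
    rw [probReal_univ, mul_one] at h4
    exact (le_abs_self _).trans h4
  have h5 : (0 : ℝ) ≤ (k + 1 : ℝ) * (2 / ‖z - 1‖) ^ 2 := by positivity
  have h6 : (1 : ℝ) ≤ N := by
    have : 0 < N := by
      rcases Nat.eq_zero_or_pos N with h | h
      · subst h
        simp only [Nat.cast_zero] at hN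
        linarith
      · exact h
    exact_mod_cast this
  calc (k + 1 : ℝ) * ∫ p, ‖cs (T 0) n N p‖ ^ 2 ∂(volume : Measure T2)
      ≤ (k + 1 : ℝ) * (2 / ‖z - 1‖) ^ 2 := by gcongr
    _ < N := hN
    _ ≤ (N : ℝ) ^ 2 := by nlinarith

theorem erg_rot : Ergodic (T 0) (volume : Measure T2) :=
  ergodic_of_crit (measurePreserving_T 0) crit_rot

theorem fin_G {x : ℕ → ℝ} {K : ℕ} (h : ∀ k, K ≤ k → x k = 0) : x ∈ G :=
  crit_of_ergodic (erg_of_isom (measurePreserving_T x)
    (isom_of_summable x 0 (fin_summable h)) erg_rot)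

theorem G_residual : G ∈ residual (ℕ → ℝ) := by
  rw [G_eq, countable_iInter_mem]
  intro n
  rw [countable_iInter_mem]
  intro k
  refine residual_of_dense_open (Gp_open _ _) (fin_dense.mono ?_)
  rintro x ⟨K, hK⟩
  have h1 := fin_G hK
  rw [G_eq] at h1
  exact Set.mem_iInter.1 (Set.mem_iInter.1 h1 n) k

theorem G_inv {x y : ℕ → ℝ} (h : Summable fun n => |x n - y n|) (hy : y ∈ G) : x ∈ G :=
  crit_of_ergodic (erg_of_isom (measurePreserving_T x) (isom_of_summable x y h)
    (ergodic_of_crit (measurePreserving_T y) hy))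

theorem G_erg {x : ℕ → ℝ} (h : x ∈ G) : Ergodic (T x) (volume : Measure T2) :=
  ergodic_of_crit (measurePreserving_T x) h

end Pool.Agent.K9h79.SE
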