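import Pool.Agent.K9h79.SE.NonIso
import Pool.Agent.K9h79.SE.Erg

/-!
# Measure isomorphism of the smooth ergodic transformations of the torus is not classifiable by
countable structures
-/

set_option autoImplicit false

open Filter Topology MeasureTheory
open scoped Manifold ContDiff

noncomputable section

namespace Pool.Agent.K9h79.SE

/-- the smooth ergodic transformations of the torus -/
abbrev SErg : Type := {S : Diffeomorph (𝓡 2) (𝓡 2) T2 T2 ∞ //
  MeasurePreserving (⇑S) (volume : Measure T2) volume ∧ Ergodic (⇑S) (volume : Measure T2)}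

theorem zero_G : (0 : ℕ → ℝ) ∈ G := fin_G (K := 0) fun _ _ => rfl

open Classical in
/-- the family of smooth ergodic transformations -/
def Fam (x : ℕ → ℝ) : SErg :=
  if h : x ∈ G then ⟨Td x, measurePreserving_T x, G_erg h⟩
  else ⟨Td 0, measurePreserving_T 0, G_erg zero_G⟩

theorem Fam_pos {x : ℕ → ℝ} (h : x ∈ G) :
    Fam x = ⟨Td x, measurePreserving_T x, G_erg h⟩ := dif_pos h

theorem Fam_neg {x : ℕ → ℝ} (h : x ∉ G) :
    Fam x = ⟨Td 0, measurePreserving_T 0, G_erg zero_G⟩ := dif_neg h

theorem Fam_coe_pos {x : ℕ → ℝ} (h : x ∈ G) : (⇑(Fam x).1 : T2 → T2) = T x := by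
  rw [Fam_pos h]
  rfl

theorem Fam_coe_neg {x : ℕ → ℝ} (h : x ∉ G) : (⇑(Fam x).1 : T2 → T2) = T 0 := by
  rw [Fam_neg h]
  rfl

theorem Fam_meas : @Measurable (ℕ → ℝ) SErg inferInstance
    (MeasurableSpace.comap (fun S : SErg => (⇑S.1 : T2 → T2)) inferInstance) Fam := by
  classical
  rw [measurable_comap_iff]
  refine measurable_pi_iff.2 fun p => ?_
  have h1 : (fun x : ℕ → ℝ => ((fun S : SErg => (⇑S.1 : T2 → T2)) ∘ Fam) x p) =
      fun x => if x ∈ G then T x p else T 0 p := by
    funext x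
    by_cases h : x ∈ G
    · rw [if_pos h]
      exact congrFun (Fam_coe_pos h) p
    · rw [if_neg h]
      exact congrFun (Fam_coe_neg h) p
  rw [h1]
  have h2 : Measurable fun x : ℕ → ℝ => T x p := by
    have h3 : Continuous fun x : ℕ → ℝ => ((x, p) : (ℕ → ℝ) × T2) := by fun_prop
    have h4 := (T_joint 1).comp h3
    simp only [Function.comp_def, Function.iterate_one] at h4
    exact h4.measurable
  exact Measurable.ite G_meas h2 measurable_const

/-- There is no Borel reduction of measure isomorphism on the smooth ergodic transformations of the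
torus to isomorphism of countable binary relations. -/
theorem no_reduction : ¬ ∃ f : SErg → (ℕ → ℕ → Bool),
    @Measurable SErg (ℕ → ℕ → Bool)
      (MeasurableSpace.comap (fun S : SErg => (⇑S.1 : T2 → T2)) inferInstance) inferInstance f ∧
    ∀ S T' : SErg, Isom (⇑S.1) (⇑T'.1) ↔
      ∃ σ : Equiv.Perm ℕ, ∀ i j : ℕ, f S i j = f T' (σ i) (σ j) := by
  rintro ⟨f, hf, hfr⟩
  have h1 : Measurable fun x => f (Fam x) := hf.comp Fam_meas
  obtain ⟨C, hC, h2⟩ := erg (fun x => f (Fam x)) h1 fun x y hxy => by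
    by_cases hx : x ∈ G
    · have hyx : Summable fun n => |y n - x n| := by
        refine hxy.congr fun n => abs_sub_comm _ _
      have hy : y ∈ G := G_inv hyx hx
      refine (hfr _ _).1 ?_
      rw [Fam_coe_pos hx, Fam_coe_pos hy]
      exact isom_of_summable x y hxy
    · have hy : y ∉ G := fun hy => hx (G_inv hxy hy)
      refine ⟨Equiv.refl ℕ, fun i j => ?_⟩
      rw [Fam_neg hx, Fam_neg hy]
      rfl
  refine non_iso (inter_mem hC G_residual) ?_
  rintro x ⟨hx, hxG⟩ y ⟨hy, hyG⟩
  have h3 := (hfr (Fam x) (Fam y)).2 (h2 x hx y hy)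
  rwa [Fam_coe_pos hxG, Fam_coe_pos hyG] at h3

end Pool.Agent.K9h79.SE
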