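import Pool.Agent.K9h79.SE.Rigid

/-!
# No comeager set of parameters gives pairwise isomorphic systems
-/

set_option autoImplicit false

open Filter Topology MeasureTheory

noncomputable section

namespace Pool.Agent.K9h79.SE

/-- the parameters with strong rigidity -/
def Cm (k : ℕ) : Set (ℕ → ℝ) :=
  {x | ∀ m : ℕ, ‖m • A‖ < 1 / ((k : ℝ) + 1) → ‖m • B‖ < 1 / ((k : ℝ) + 1) → 1 / 2 ≤ J x m}

theorem Cm_closed (k : ℕ) : IsClosed (Cm k) := by
  have : Cm k = ⋂ m : ℕ, ⋂ (_ : ‖m • A‖ < 1 / ((k : ℝ) + 1)), ⋂ (_ : ‖m • B‖ < 1 / ((k : ℝ) + 1)),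
      {x | 1 / 2 ≤ J x m} := by
    ext x
    simp only [Cm, Set.mem_ofPred_eq, Set.mem_iInter]
  rw [this]
  exact isClosed_iInter fun m => isClosed_iInter fun _ => isClosed_iInter fun _ =>
    isClosed_le continuous_const (J_cont m)

theorem step_B {C : Set (ℕ → ℝ)} (hC : C ∈ residual (ℕ → ℝ))
    (h : ∀ x ∈ C, ∀ y ∈ C, Isom (T x) (T y)) {x : ℕ → ℝ} (hx : x ∈ C) : ∃ k, x ∈ Cm k := by
  by_contra hcon
  push Not at hcon
  have h1 : ∀ k : ℕ, ∃ m : ℕ, ‖m • A‖ < 1 / ((k : ℝ) + 1) ∧ ‖m • B‖ < 1 / ((k : ℝ) + 1) ∧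
      J x m < 1 / 2 := by
    intro k
    by_contra h2
    push Not at h2
    exact hcon k h2
  choose n hn1 hn2 hn3 using h1
  have hA : Tendsto (fun i => n i • A) atTop (𝓝 0) := by
    rw [tendsto_zero_iff_norm_tendsto_zero]
    exact squeeze_zero (fun _ => norm_nonneg _) (fun i => (hn1 i).le)
      tendsto_one_div_add_atTop_nhds_zero_nat
  have hB : Tendsto (fun i => n i • B) atTop (𝓝 0) := by
    rw [tendsto_zero_iff_norm_tendsto_zero]
    exact squeeze_zero (fun _ => norm_nonneg _) (fun i => (hn2 i).le)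
      tendsto_one_div_add_atTop_nhds_zero_nat
  have hR : (C ∩ ⋂ i0, Rg n i0) ∈ residual (ℕ → ℝ) :=
    inter_mem hC ((countable_iInter_mem).2 fun i0 => Rg_residual hA i0)
  obtain ⟨y, hy1, hy2⟩ := (dense_of_mem_residual hR).nonempty
  obtain ⟨i, hi⟩ := J_of_isom (n := n) (h x hx y hy1)
    (fun δ hδ => rigid_times hA hB (fun i0 => Set.mem_iInter.1 hy2 i0) hδ)
  exact absurd hi (not_lt.2 (hn3 i).le)

theorem step_C {C : Set (ℕ → ℝ)} (hC : C ∈ residual (ℕ → ℝ)) (h : ∀ x ∈ C, ∃ k, x ∈ Cm k) :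
    ∃ k, (interior (Cm k)).Nonempty := by
  by_contra hcon
  push Not at hcon
  have h1 : ∀ k, (Cm k)ᶜ ∈ residual (ℕ → ℝ) := by
    intro k
    refine residual_of_dense_open (Cm_closed k).isOpen_compl ?_
    rw [← interior_eq_empty_iff_dense_compl]
    exact hcon k
  have h2 : (C ∩ ⋂ k, (Cm k)ᶜ) ∈ residual (ℕ → ℝ) :=
    inter_mem hC ((countable_iInter_mem).2 h1)
  obtain ⟨y, hy1, hy2⟩ := (dense_of_mem_residual h2).nonempty
  obtain ⟨k, hk⟩ := h y hy1
  exact Set.mem_iInter.1 hy2 k hk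

/-- the test parameter -/
def xt (z : ℕ → ℝ) (K L : ℕ) : ℕ → ℝ :=
  fun k => if k < K then z k else if k = L then Real.pi / 2 else 0

/-- the truncated parameter -/
def zt (z : ℕ → ℝ) (K : ℕ) : ℕ → ℝ := fun k => if k < K then z k else 0

theorem zt_sum (z : ℕ → ℝ) (K : ℕ) : Summable fun n => |zt z K n - (0 : ℕ → ℝ) n| :=
  fin_summable (K := K) fun k hk => if_neg (not_lt.2 hk)

theorem xt_sum (z : ℕ → ℝ) (K L : ℕ) : Summable fun n => |xt z K L n - (0 : ℕ → ℝ) n| := by
  refine fin_summable (K := K + L + 1) fun k hk => ?_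
  unfold xt
  rw [if_neg (by omega), if_neg (by omega)]

theorem H_xt (z : ℕ → ℝ) {K L : ℕ} (hL : K ≤ L) (u : C1) :
    H (xt z K L) 0 u = H (zt z K) 0 u + (1 / 4) * w L u := by
  have s1 : Summable fun k => (φ (zt z K k) - φ ((0 : ℕ → ℝ) k)) * w k u :=
    Summable.of_norm_bounded (zt_sum z K) fun k => H_term (zt z K) 0 k u
  have h1 : (fun k => (φ (xt z K L k) - φ ((0 : ℕ → ℝ) k)) * w k u) =
      fun k => (φ (zt z K k) - φ ((0 : ℕ → ℝ) k)) * w k u +
        (if k = L then (1 / 4) * w L u else 0) := by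
    funext k
    unfold xt zt
    by_cases h2 : k < K
    · have h3 : k ≠ L := by omega
      rw [if_pos h2, if_pos h2, if_neg h3, add_zero]
    · by_cases h3 : k = L
      · subst h3
        rw [if_neg h2, if_neg h2, if_pos rfl, if_pos rfl]
        unfold φ
        simp
      · rw [if_neg h2, if_neg h2, if_neg h3, if_neg h3, add_zero]
  unfold H
  rw [h1, s1.tsum_add, tsum_ite_eq]
  exact (hasSum_ite_eq L ((1 / 4) * w L u)).summable

/-- the frequency `Q L` at the time `tm (2 L)` -/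
theorem w_shift (L : ℕ) (u : C1) :
    |w L (u + tm (2 * L) • A) + w L u| ≤ Real.pi * (1 / 2 : ℝ) ^ (2 * L) := by
  obtain ⟨t, rfl⟩ := coe_surj u
  obtain ⟨z, hz⟩ := tm_α L
  set ε := tm (2 * L) * α - z - (1 / 2 : ℝ) ^ (s (2 * L) + 1) with hε
  have h1 : ((t : ℝ) : C1) + tm (2 * L) • A = ((t + tm (2 * L) * α : ℝ) : C1) := by
    unfold A
    rw [AddCircle.coe_add, ← AddCircle.coe_nsmul, nsmul_eq_mul]
  have hQ : (Q L : ℝ) * (1 / 2 : ℝ) ^ (s (2 * L) + 1) = 1 / 2 := by
    unfold Q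
    push_cast
    rw [pow_succ (1 / 2 : ℝ), ← mul_assoc, ← mul_pow]
    norm_num
  have h2 : w L (((t : ℝ) : C1) + tm (2 * L) • A) =
      -Real.cos (2 * Real.pi * Q L * t + 2 * Real.pi * Q L * ε) := by
    rw [h1, w_coe]
    have h3 : 2 * Real.pi * Q L * (t + tm (2 * L) * α) =
        (2 * Real.pi * Q L * t + 2 * Real.pi * Q L * ε) + Real.pi +
          ((Q L : ℤ) * z : ℤ) * (2 * Real.pi) := by
      have h4 : tm (2 * L) * α = ε + z + (1 / 2 : ℝ) ^ (s (2 * L) + 1) := by rw [hε]; ring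
      rw [h4]
      push_cast
      linear_combination (2 * Real.pi) * hQ
    rw [h3, Real.cos_add_int_mul_two_pi, Real.cos_add_pi]
  rw [h2, w_coe]
  have h5 : |Real.cos (2 * Real.pi * Q L * t + 2 * Real.pi * Q L * ε) -
      Real.cos (2 * Real.pi * Q L * t)| ≤ |2 * Real.pi * Q L * ε| := by
    have := Real.lipschitzWith_cos.dist_le_mul (2 * Real.pi * Q L * t + 2 * Real.pi * Q L * ε)
      (2 * Real.pi * Q L * t)
    rw [Real.dist_eq, Real.dist_eq, NNReal.coe_one, one_mul, add_sub_cancel_left] at this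
    exact this
  have h6 : -Real.cos (2 * Real.pi * Q L * t + 2 * Real.pi * Q L * ε) +
      Real.cos (2 * Real.pi * Q L * t) =
      -(Real.cos (2 * Real.pi * Q L * t + 2 * Real.pi * Q L * ε) -
      Real.cos (2 * Real.pi * Q L * t)) := by ring
  rw [h6, abs_neg]
  refine h5.trans ?_
  rw [abs_mul, abs_of_nonneg (by positivity : (0 : ℝ) ≤ 2 * Real.pi * Q L)]
  have h7 : |ε| ≤ (1 / 2 : ℝ) ^ (s (2 * L) + 1) * (1 / 2 : ℝ) ^ (2 * L) :=
    hz.trans (er_le _ _ (by norm_num))
  calc 2 * Real.pi * Q L * |ε|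
      ≤ 2 * Real.pi * Q L * ((1 / 2 : ℝ) ^ (s (2 * L) + 1) * (1 / 2 : ℝ) ^ (2 * L)) := by gcongr
    _ = 2 * Real.pi * (Q L * (1 / 2 : ℝ) ^ (s (2 * L) + 1)) * (1 / 2 : ℝ) ^ (2 * L) := by ring
    _ = Real.pi * (1 / 2 : ℝ) ^ (2 * L) := by rw [hQ]; ring

theorem tmA_le (L : ℕ) : ‖tm (2 * L) • A‖ ≤ 2 * (1 / 2 : ℝ) ^ (2 * L) := by
  obtain ⟨z, hz⟩ := tm_α L
  have h1 : tm (2 * L) • A = ((tm (2 * L) * α - z : ℝ) : C1) := by
    unfold A
    rw [AddCircle.coe_sub, ← nsmul_eq_mul, AddCircle.coe_nsmul]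
    have : (((z : ℝ)) : C1) = 0 := by
      rw [AddCircle.coe_eq_zero_iff]
      exact ⟨z, by simp⟩
    rw [this, sub_zero]
  rw [h1]
  refine (norm_coe_le _).trans ?_
  have h2 := er_le (2 * L) 4 (by norm_num)
  have h3 := theta_le (2 * L)
  have h4 : (1 / 2 : ℝ) ^ (s (2 * L) + 1) * (1 / 2 : ℝ) ^ (2 * L) ≤ (1 / 2 : ℝ) ^ (2 * L) :=
    mul_le_of_le_one_left (by positivity) (pow_le_one₀ (by norm_num) (by norm_num))
  have h5 : (0 : ℝ) < (1 / 2 : ℝ) ^ (s (2 * L) + 1) := by positivity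
  rw [abs_le] at hz ⊢
  constructor <;> linarith [hz.1, hz.2]

theorem tmβ_le (L : ℕ) : ∃ z : ℤ, |tm (2 * L) * β - z| ≤ (1 / 2 : ℝ) ^ (2 * L) := by
  obtain ⟨z, hz⟩ := tm_β L
  refine ⟨z, hz.trans ((er_le (2 * L) 3 le_rfl).trans ?_)⟩
  exact mul_le_of_le_one_left (by positivity) (pow_le_one₀ (by norm_num) (by norm_num))

theorem tmB_le (L : ℕ) : ‖tm (2 * L) • B‖ ≤ (1 / 2 : ℝ) ^ (2 * L) := by
  obtain ⟨z, hz⟩ := tmβ_le L
  have h1 : tm (2 * L) • B = ((tm (2 * L) * β - z : ℝ) : C1) := by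
    unfold B
    rw [AddCircle.coe_sub, ← nsmul_eq_mul, AddCircle.coe_nsmul]
    have : (((z : ℝ)) : C1) = 0 := by
      rw [AddCircle.coe_eq_zero_iff]
      exact ⟨z, by simp⟩
    rw [this, sub_zero]
  rw [h1]
  exact (norm_coe_le _).trans hz

/-- the mean square of `w L` -/
theorem int_w_sq (L : ℕ) : ∫ p : T2, w L (p 0) ^ 2 ∂(volume : Measure T2) = 1 / 2 := by
  have hn : (![2 * (Q L : ℤ), 0] : Fin 2 → ℤ) ≠ 0 := by
    intro h
    have := congrFun h 0
    simp only [Matrix.cons_val_zero, Pi.zero_apply] at this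
    have hQ := Q_pos L
    omega
  have h1 : ∀ p : T2, w L (p 0) ^ 2 = 1 / 2 + 1 / 2 * (chi ![2 * (Q L : ℤ), 0] p).re := by
    intro p
    unfold chi w
    simp only [Matrix.cons_val_zero, Matrix.cons_val_one, fourier_zero, mul_one]
    have h2 : (fourier (2 * (Q L : ℤ)) (p 0) : ℂ) =
        fourier (Q L : ℤ) (p 0) * fourier (Q L : ℤ) (p 0) := by
      rw [two_mul, fourier_add]
    rw [h2, Complex.mul_re]
    have h3 : ‖(fourier (Q L : ℤ) (p 0) : ℂ)‖ = 1 := norm_fourier' _ _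
    have h4 := Complex.sq_norm (fourier (Q L : ℤ) (p 0) : ℂ)
    rw [h3, Complex.normSq_apply] at h4
    nlinarith
  have hint : Integrable (chi ![2 * (Q L : ℤ), 0]) (volume : Measure T2) :=
    Integrable.of_bound (chi_cont _).aestronglyMeasurable 1
      (Eventually.of_forall fun p => (norm_chi _ p).le)
  have h5 : ∫ p : T2, (chi ![2 * (Q L : ℤ), 0] p).re ∂(volume : Measure T2) = 0 := by
    have h6 := integral_re hint
    simp only [RCLike.re_to_complex] at h6
    rw [h6, integral_chi _ hn]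
    simp
  have hre : Integrable (fun p : T2 => (chi ![2 * (Q L : ℤ), 0] p).re) (volume : Measure T2) := by
    have := hint.re
    simpa only [RCLike.re_to_complex] using this
  simp_rw [h1]
  rw [integral_add (integrable_const _) (hre.const_mul _), integral_const_mul, h5]
  simp

theorem cos_le_aux {c : ℝ} (hc : |c| ≤ 1) : Real.cos (Real.pi * c) ≤ 1 - 2 * c ^ 2 := by
  have h1 : Real.cos (Real.pi * c) = 1 - 2 * Real.sin (Real.pi * c / 2) ^ 2 := by
    have := Real.cos_two_mul' (Real.pi * c / 2)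
    rw [show 2 * (Real.pi * c / 2) = Real.pi * c by ring] at this
    rw [this]
    have h2 := Real.sin_sq_add_cos_sq (Real.pi * c / 2)
    linarith
  have h2 : c ^ 2 ≤ Real.sin (Real.pi * c / 2) ^ 2 := by
    have h3 : |c| ≤ |Real.sin (Real.pi * c / 2)| := by
      rcases le_total 0 c with h | h
      · have h4 := Real.mul_le_sin (x := Real.pi * c / 2) (by positivity)
          (by rw [abs_of_nonneg h] at hc; nlinarith [Real.pi_pos])
        have h5 : 2 / Real.pi * (Real.pi * c / 2) = c := by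
          field_simp
        rw [h5] at h4
        rw [abs_of_nonneg h]
        exact h4.trans (le_abs_self _)
      · have h4 := Real.mul_le_sin (x := Real.pi * (-c) / 2)
          (by have := Real.pi_pos; have : 0 ≤ -c := by linarith
              positivity)
          (by rw [abs_of_nonpos h] at hc; nlinarith [Real.pi_pos])
        have h5 : 2 / Real.pi * (Real.pi * (-c) / 2) = -c := by
          field_simp
        rw [h5] at h4
        have h6 : Real.sin (Real.pi * (-c) / 2) = -Real.sin (Real.pi * c / 2) := by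
          rw [← Real.sin_neg]
          congr 1
          ring
        rw [h6] at h4
        rw [abs_of_nonpos h]
        exact h4.trans (neg_le_abs _)
    exact sq_le_sq.2 h3
  rw [h1]
  linarith

/-- the correlation of the test parameter is small -/
theorem J_small (z : ℕ → ℝ) {K L : ℕ} (hL : K ≤ L) {η : ℝ}
    (hη : ∀ u, |H (zt z K) 0 (u + tm (2 * L) • A) - H (zt z K) 0 u| ≤ η) :
    J (xt z K L) (tm (2 * L)) ≤
      2 * Real.pi * ((1 / 2 : ℝ) ^ (2 * L) + η + Real.pi * (1 / 2 : ℝ) ^ (2 * L)) := by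
  obtain ⟨zz, hz⟩ := tmβ_le L
  set R := (1 / 2 : ℝ) ^ (2 * L) + η + Real.pi * (1 / 2 : ℝ) ^ (2 * L) with hR
  have h1 : ∀ p : T2, Real.cos (2 * Real.pi * (tm (2 * L) * β + Fn (xt z K L) (tm (2 * L)) (p 0))) ≤
      (1 - 2 * w L (p 0) ^ 2) + 2 * Real.pi * R := by
    intro p
    set u := p 0 with hu
    set r := (tm (2 * L) * β - zz) + (H (zt z K) 0 (u + tm (2 * L) • A) - H (zt z K) 0 u) +
      1 / 4 * (w L (u + tm (2 * L) • A) + w L u) with hr
    have h2 : Fn (xt z K L) (tm (2 * L)) u =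
        (H (zt z K) 0 (u + tm (2 * L) • A) - H (zt z K) 0 u) +
        1 / 4 * (w L (u + tm (2 * L) • A) + w L u) - 1 / 2 * w L u := by
      rw [Fn_eq _ (xt_sum z K L), H_xt z hL, H_xt z hL]
      ring
    have h3 : 2 * Real.pi * (tm (2 * L) * β + Fn (xt z K L) (tm (2 * L)) u) =
        -(Real.pi * w L u) + 2 * Real.pi * r + zz * (2 * Real.pi) := by
      rw [h2, hr]
      ring
    rw [h3, Real.cos_add_int_mul_two_pi]
    have h4 : |r| ≤ R := by
      rw [hr, hR]
      have h5 := w_shift L u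
      have h6 := hη u
      have h7 := abs_nonneg (w L (u + tm (2 * L) • A) + w L u)
      refine (abs_add_le _ _).trans (add_le_add ((abs_add_le _ _).trans (add_le_add hz h6)) ?_)
      rw [abs_mul, abs_of_nonneg (by norm_num : (0 : ℝ) ≤ 1 / 4)]
      linarith
    have h5 : |Real.cos (-(Real.pi * w L u) + 2 * Real.pi * r) - Real.cos (-(Real.pi * w L u))| ≤
        2 * Real.pi * R := by
      have := Real.lipschitzWith_cos.dist_le_mul (-(Real.pi * w L u) + 2 * Real.pi * r)
        (-(Real.pi * w L u))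
      rw [Real.dist_eq, Real.dist_eq, NNReal.coe_one, one_mul, add_sub_cancel_left] at this
      refine this.trans ?_
      rw [abs_mul, abs_of_nonneg (by positivity : (0 : ℝ) ≤ 2 * Real.pi)]
      gcongr
    have h6 := cos_le_aux (w_le L u)
    rw [Real.cos_neg] at h5
    have h7 := (abs_le.1 h5).2
    linarith
  have hw : Continuous fun p : T2 => w L (p 0) ^ 2 := ((w_cont L).comp (cont_coord 0)).pow 2
  have hwi : Integrable (fun p : T2 => w L (p 0) ^ 2) (volume : Measure T2) :=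
    Integrable.of_bound hw.aestronglyMeasurable 1 (Eventually.of_forall fun p => by
      rw [norm_pow, Real.norm_eq_abs]
      exact pow_le_one₀ (abs_nonneg _) (w_le L _))
  have hJ : Integrable (fun p : T2 => Real.cos (2 * Real.pi * (tm (2 * L) * β +
      Fn (xt z K L) (tm (2 * L)) (p 0)))) (volume : Measure T2) :=
    Integrable.of_bound (J_int_cont _ _).aestronglyMeasurable 1
      (Eventually.of_forall fun p => Real.abs_cos_le_one _)
  have i1 : Integrable (fun p : T2 => 1 - 2 * w L (p 0) ^ 2) (volume : Measure T2) :=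
    (integrable_const _).sub (hwi.const_mul 2)
  have h2 : J (xt z K L) (tm (2 * L)) ≤
      ∫ p : T2, ((1 - 2 * w L (p 0) ^ 2) + 2 * Real.pi * R) ∂(volume : Measure T2) :=
    integral_mono hJ (i1.add (integrable_const _)) h1
  rw [integral_add i1 (integrable_const _), integral_sub (integrable_const _) (hwi.const_mul 2),
    integral_const_mul, int_w_sq] at h2
  simp only [integral_const, probReal_univ, smul_eq_mul, one_mul] at h2
  linarith

theorem half_tendsto : Tendsto (fun L : ℕ => (1 / 2 : ℝ) ^ (2 * L)) atTop (𝓝 0) := by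
  have h : (fun L : ℕ => (1 / 2 : ℝ) ^ (2 * L)) = fun L : ℕ => (1 / 4 : ℝ) ^ L := by
    funext L
    rw [pow_mul]
    norm_num
  rw [h]
  exact tendsto_pow_atTop_nhds_zero_of_lt_one (by norm_num) (by norm_num)

theorem step_D (k : ℕ) : ¬ (interior (Cm k)).Nonempty := by
  rintro ⟨z, hz⟩
  -- a basic neighbourhood
  obtain ⟨I, t, ht, hsub⟩ := isOpen_pi_iff.1 (isOpen_interior (s := Cm k)) z hz
  set K := I.sup _root_.id + 1 with hK
  have hmem : ∀ L, xt z K L ∈ Cm k := by
    intro L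
    apply interior_subset
    apply hsub
    intro i hi
    have h1 : i < K := Nat.lt_succ_of_le (Finset.le_sup (f := _root_.id) hi)
    have h2 : xt z K L i = z i := if_pos h1
    rw [h2]
    exact (ht i hi).2
  have huc := CompactSpace.uniformContinuous_of_continuous (H_cont (zt z K) 0 (zt_sum z K))
  obtain ⟨δ, hδ, h1⟩ := Metric.uniformContinuous_iff.1 huc (1 / 100) (by norm_num)
  have hk : (0 : ℝ) < 1 / ((k : ℝ) + 1) := by positivity
  have e1 := half_tendsto.eventually (gt_mem_nhds (show (0 : ℝ) < δ / 2 by positivity))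
  have e2 := half_tendsto.eventually (gt_mem_nhds (show (0 : ℝ) < 1 / ((k : ℝ) + 1) / 2 by
    positivity))
  have e3 := half_tendsto.eventually (gt_mem_nhds (show (0 : ℝ) < 1 / 100 by norm_num))
  obtain ⟨L, ⟨⟨h2, h3⟩, h4⟩, h5⟩ := (((e1.and e2).and e3).and (eventually_ge_atTop K)).exists
  have h6 := tmA_le L
  have h7 := tmB_le L
  have h8 : ∀ u, |H (zt z K) 0 (u + tm (2 * L) • A) - H (zt z K) 0 u| ≤ 1 / 100 := by
    intro u
    have h9 : dist (u + tm (2 * L) • A) u < δ := by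
      rw [dist_eq_norm, add_sub_cancel_left]
      linarith
    have h10 := h1 h9
    rw [Real.dist_eq] at h10
    exact h10.le
  have h9 := J_small z h5 h8
  have h10 := hmem L (tm (2 * L)) (by linarith) (by linarith)
  have h11 : 0 < (1 / 2 : ℝ) ^ (2 * L) := by positivity
  have h12 := Real.pi_pos
  have h13 := Real.pi_lt_d2
  nlinarith [mul_pos h12 h11]

/-- **No comeager set** of parameters gives pairwise isomorphic systems. -/
theorem non_iso {C : Set (ℕ → ℝ)} (hC : C ∈ residual (ℕ → ℝ)) :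
    ¬ ∀ x ∈ C, ∀ y ∈ C, Isom (T x) (T y) := by
  intro h
  obtain ⟨k, hk⟩ := step_C hC fun x hx => step_B hC h hx
  exact step_D k hk

end Pool.Agent.K9h79.SE
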