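import Mathlib

/-!
# Two Liouville numbers
-/

set_option autoImplicit false

open Filter Topology

noncomputable section

namespace Pool.Agent.K9h79.SE

/-- the exponents -/
def s (j : ℕ) : ℕ := (j + 2).factorial

theorem s_succ (j : ℕ) : s (j + 1) = (j + 3) * s j := by
  unfold s
  rw [show j + 1 + 2 = (j + 2) + 1 by ring, Nat.factorial_succ]

theorem s_pos (j : ℕ) : 0 < s j := Nat.factorial_pos _

theorem s_lt (j : ℕ) : s j < s (j + 1) := by
  rw [s_succ]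
  have := s_pos j
  nlinarith

theorem s_strictMono : StrictMono s := strictMono_nat_of_lt_succ s_lt

theorem le_s (j : ℕ) : j + 2 ≤ s j := Nat.self_le_factorial _

theorem s_add (j i : ℕ) : s j + i ≤ s (j + i) := by
  induction i with
  | zero => simp
  | succ i ih =>
    have := s_lt (j + i)
    rw [← add_assoc, ← add_assoc]
    omega

/-- `Σ 2^{-e i}` -/
def S (e : ℕ → ℕ) : ℝ := ∑' i, (1 / 2 : ℝ) ^ e i

theorem summable_pow {e : ℕ → ℕ} (he : StrictMono e) : Summable fun i => (1 / 2 : ℝ) ^ e i := by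
  refine Summable.of_nonneg_of_le (fun i => by positivity) (fun i => ?_) summable_geometric_two
  exact pow_le_pow_of_le_one (by norm_num) (by norm_num) (he.id_le i)

theorem tail_le {e : ℕ → ℕ} (he : StrictMono e) (K : ℕ) :
    0 ≤ ∑' i, (1 / 2 : ℝ) ^ e (i + K) ∧
      ∑' i, (1 / 2 : ℝ) ^ e (i + K) ≤ 2 * (1 / 2 : ℝ) ^ e K := by
  refine ⟨tsum_nonneg fun i => by positivity, ?_⟩
  have h1 : ∀ i, (1 / 2 : ℝ) ^ e (i + K) ≤ (1 / 2 : ℝ) ^ e K * (1 / 2) ^ i := by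
    intro i
    rw [← pow_add]
    apply pow_le_pow_of_le_one (by norm_num) (by norm_num)
    have : ∀ i, e K + i ≤ e (i + K) := by
      intro i
      induction i with
      | zero => simp
      | succ i ih =>
        have := he (show i + K < i + 1 + K by omega)
        omega
    exact this i
  have h2 : Summable fun i : ℕ => (1 / 2 : ℝ) ^ e K * (1 / 2) ^ i :=
    summable_geometric_two.mul_left _
  have h3 : Summable fun i => (1 / 2 : ℝ) ^ e (i + K) :=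
    Summable.of_nonneg_of_le (fun i => by positivity) h1 h2
  refine (h3.tsum_le_tsum h1 h2).trans ?_
  rw [tsum_mul_left, tsum_geometric_two, mul_comm]

theorem approx {e : ℕ → ℕ} (he : StrictMono e) (r K : ℕ) (h : ∀ i < K, e i ≤ r) :
    ∃ z : ℤ, |2 ^ r * S e - z| ≤ 2 ^ r * (2 * (1 / 2 : ℝ) ^ e K) ∧
      |2 ^ r * S e - z - 2 ^ r * (1 / 2 : ℝ) ^ e K| ≤ 2 ^ r * (2 * (1 / 2 : ℝ) ^ e (K + 1)) := by
  refine ⟨∑ i ∈ Finset.range K, (2 : ℤ) ^ (r - e i), ?_⟩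
  have h1 := (summable_pow he).sum_add_tsum_nat_add K
  have h2 : (2 : ℝ) ^ r * ∑ i ∈ Finset.range K, (1 / 2 : ℝ) ^ e i =
      ((∑ i ∈ Finset.range K, (2 : ℤ) ^ (r - e i) : ℤ) : ℝ) := by
    push_cast
    rw [Finset.mul_sum]
    refine Finset.sum_congr rfl fun i hi => ?_
    have h3 := h i (Finset.mem_range.1 hi)
    have h4 : (2 : ℝ) ^ r = 2 ^ (r - e i) * 2 ^ e i := by
      rw [← pow_add, Nat.sub_add_cancel h3]
    rw [h4, one_div, inv_pow, mul_assoc, mul_inv_cancel₀ (by positivity), mul_one]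
  have h3 : (2 : ℝ) ^ r * S e - ((∑ i ∈ Finset.range K, (2 : ℤ) ^ (r - e i) : ℤ) : ℝ) =
      2 ^ r * ∑' i, (1 / 2 : ℝ) ^ e (i + K) := by
    rw [← h2]
    unfold S
    rw [← h1]
    ring
  obtain ⟨h4, h5⟩ := tail_le he K
  obtain ⟨h6, h7⟩ := tail_le he (K + 1)
  have h8 : ∑' i, (1 / 2 : ℝ) ^ e (i + K) =
      (1 / 2 : ℝ) ^ e K + ∑' i, (1 / 2 : ℝ) ^ e (i + (K + 1)) := by
    have h9 : Summable fun i => (1 / 2 : ℝ) ^ e (i + K) :=
      (summable_nat_add_iff (f := fun i => (1 / 2 : ℝ) ^ e i) K).2 (summable_pow he)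
    rw [h9.tsum_eq_zero_add]
    simp only [zero_add, add_right_inj]
    refine tsum_congr fun i => ?_
    congr 2
    ring
  constructor
  · rw [h3, abs_of_nonneg (by positivity)]
    exact mul_le_mul_of_nonneg_left h5 (by positivity)
  · rw [h3, h8]
    have : (2 : ℝ) ^ r * ((1 / 2 : ℝ) ^ e K + ∑' i, (1 / 2 : ℝ) ^ e (i + (K + 1))) -
        2 ^ r * (1 / 2 : ℝ) ^ e K = 2 ^ r * ∑' i, (1 / 2 : ℝ) ^ e (i + (K + 1)) := by ring
    rw [this, abs_of_nonneg (by positivity)]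
    exact mul_le_mul_of_nonneg_left h7 (by positivity)

theorem mono_ev : StrictMono fun i => s (2 * i) := fun _ _ h => s_strictMono (by omega)
theorem mono_od : StrictMono fun i => s (2 * i + 1) := fun _ _ h => s_strictMono (by omega)

/-- the first number -/
def α : ℝ := S fun i => s (2 * i)

/-- the second number -/
def β : ℝ := S fun i => s (2 * i + 1)

/-- the frequencies -/
def Q (k : ℕ) : ℕ := 2 ^ s (2 * k)

theorem Q_pos (k : ℕ) : 0 < Q k := by unfold Q; positivity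

/-- `Q k * α` is very close to an integer -/
theorem Qα (k : ℕ) : ∃ z : ℤ, |Q k * α - z| ≤ Q k * (2 * (1 / 2 : ℝ) ^ s (2 * k + 2)) := by
  obtain ⟨z, hz, -⟩ := approx mono_ev (s (2 * k)) (k + 1)
    (fun i hi => s_strictMono.monotone (by omega))
  refine ⟨z, ?_⟩
  unfold Q α
  push_cast
  exact hz

/-- the times -/
def tm (j : ℕ) : ℕ := 2 ^ (s (j + 2) - s j - 1)

theorem exp_le (j : ℕ) : s (j + 1) ≤ s (j + 2) - s j - 1 := by
  have h1 := s_succ (j + 1)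
  have h2 := s_lt j
  have h3 := s_pos (j + 1)
  have h4 : s (j + 2) = (j + 1 + 3) * s (j + 1) := h1
  have h5 : s (j + 2) ≥ 4 * s (j + 1) := by rw [h4]; nlinarith
  omega

theorem tm_mul (j : ℕ) : (tm j : ℝ) * (1 / 2 : ℝ) ^ s (j + 2) = (1 / 2 : ℝ) ^ (s j + 1) := by
  have h1 : s (j + 2) - s j - 1 + (s j + 1) = s (j + 2) := by
    have h2 := exp_le j
    have h3 := s_lt j
    have h4 := s_lt (j + 1)
    have h5 : s (j + 1 + 1) = s (j + 2) := rfl
    omega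
  unfold tm
  push_cast
  generalize s (j + 2) - s j - 1 = r at h1 ⊢
  rw [← h1, pow_add (1 / 2 : ℝ), ← mul_assoc, ← mul_pow]
  norm_num

/-- error bounds at the times -/
def er (j i : ℕ) : ℝ := tm j * (2 * (1 / 2 : ℝ) ^ s (j + i))

theorem tm_α (L : ℕ) : ∃ z : ℤ, |tm (2 * L) * α - z - (1 / 2 : ℝ) ^ (s (2 * L) + 1)| ≤
    er (2 * L) 4 := by
  obtain ⟨z, -, hz⟩ := approx mono_ev (s (2 * L + 2) - s (2 * L) - 1) (L + 1)
    (fun i hi => (s_strictMono.monotone (by omega : 2 * i ≤ 2 * L + 1)).trans (exp_le _))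
  refine ⟨z, ?_⟩
  rw [← tm_mul]
  unfold tm α er
  push_cast
  unfold tm
  push_cast
  exact hz

theorem tm_β (L : ℕ) : ∃ z : ℤ, |tm (2 * L) * β - z| ≤ er (2 * L) 3 := by
  obtain ⟨z, hz, -⟩ := approx mono_od (s (2 * L + 2) - s (2 * L) - 1) (L + 1)
    (fun i hi => (s_strictMono.monotone (by omega : 2 * i + 1 ≤ 2 * L + 1)).trans (exp_le _))
  refine ⟨z, ?_⟩
  unfold tm β er
  unfold tm
  push_cast
  exact hz

theorem tm_β' (L : ℕ) : ∃ z : ℤ, |tm (2 * L + 1) * β - z - (1 / 2 : ℝ) ^ (s (2 * L + 1) + 1)| ≤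
    er (2 * L + 1) 4 := by
  obtain ⟨z, -, hz⟩ := approx mono_od (s (2 * L + 1 + 2) - s (2 * L + 1) - 1) (L + 1)
    (fun i hi => (s_strictMono.monotone (by omega : 2 * i + 1 ≤ 2 * L + 1 + 1)).trans (exp_le _))
  refine ⟨z, ?_⟩
  rw [← tm_mul]
  unfold tm β er
  unfold tm
  push_cast
  exact hz

theorem tm_α' (L : ℕ) : ∃ z : ℤ, |tm (2 * L + 1) * α - z| ≤ er (2 * L + 1) 3 := by
  obtain ⟨z, hz, -⟩ := approx mono_ev (s (2 * L + 1 + 2) - s (2 * L + 1) - 1) (L + 2)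
    (fun i hi => (s_strictMono.monotone (by omega : 2 * i ≤ 2 * L + 1 + 1)).trans (exp_le _))
  refine ⟨z, ?_⟩
  unfold tm α er
  unfold tm
  push_cast
  exact hz

/-- the errors are small compared with `(1/2)^(s j + 1)` -/
theorem er_le (j i : ℕ) (hi : 3 ≤ i) : er j i ≤ (1 / 2 : ℝ) ^ (s j + 1) * (1 / 2 : ℝ) ^ j := by
  unfold er
  have h1 : s (j + 2) + (j + 1) ≤ s (j + i) := by
    have h2 : s (j + 3) = (j + 2 + 3) * s (j + 2) := s_succ (j + 2)
    have h3 : s (j + 3) ≤ s (j + i) := s_strictMono.monotone (by omega)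
    have h4 := s_pos (j + 2)
    nlinarith
  have h2 : (1 / 2 : ℝ) ^ s (j + i) ≤ (1 / 2 : ℝ) ^ (s (j + 2) + (j + 1)) :=
    pow_le_pow_of_le_one (by norm_num) (by norm_num) h1
  calc (tm j : ℝ) * (2 * (1 / 2 : ℝ) ^ s (j + i))
      ≤ tm j * (2 * (1 / 2 : ℝ) ^ (s (j + 2) + (j + 1))) := by gcongr
    _ = (tm j * (1 / 2 : ℝ) ^ s (j + 2)) * (2 * (1 / 2 : ℝ) ^ (j + 1)) := by
        rw [pow_add]; ring
    _ = (1 / 2 : ℝ) ^ (s j + 1) * (1 / 2 : ℝ) ^ j := by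
        rw [tm_mul, pow_succ (1 / 2 : ℝ) j]; ring

theorem er_nonneg (j i : ℕ) : 0 ≤ er j i := by unfold er; positivity

theorem theta_le (j : ℕ) : (1 / 2 : ℝ) ^ (s j + 1) ≤ (1 / 2 : ℝ) ^ j :=
  pow_le_pow_of_le_one (by norm_num) (by norm_num) (by have := le_s j; omega)

/-- If `x + z = w` for integers `z`, `w` and `|x| < 1` then `x = 0`. -/
theorem zero_of_int {x : ℝ} (z : ℤ) (h : x = z) (hx : |x| < 1) : x = 0 := by
  rw [h] at hx ⊢
  have : |z| < 1 := by exact_mod_cast hx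
  have : z = 0 := Int.abs_lt_one_iff.1 this
  simp [this]

theorem half_pow_lt (c : ℝ) : ∃ L : ℕ, ∀ j, L ≤ j → c * (1 / 2 : ℝ) ^ j < 1 := by
  have h : Tendsto (fun j : ℕ => c * (1 / 2 : ℝ) ^ j) atTop (𝓝 (c * 0)) :=
    (tendsto_pow_atTop_nhds_zero_of_lt_one (by norm_num) (by norm_num)).const_mul c
  rw [mul_zero] at h
  obtain ⟨L, hL⟩ := (h.eventually (gt_mem_nhds one_pos)).exists_forall_of_atTop
  exact ⟨L, hL⟩

/-- the key step of the independence -/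
theorem indep_aux {A B : ℝ} {p : ℕ} (hA : ∀ L : ℕ, ∃ z : ℤ,
      |tm (2 * L + p) * A - z - (1 / 2 : ℝ) ^ (s (2 * L + p) + 1)| ≤ er (2 * L + p) 4)
    (hB : ∀ L : ℕ, ∃ z : ℤ, |tm (2 * L + p) * B - z| ≤ er (2 * L + p) 3)
    {a b c : ℤ} (h : a * A + b * B = c) : a = 0 := by
  obtain ⟨L, hL⟩ := half_pow_lt (2 * |(a : ℝ)| + |(b : ℝ)| + 1)
  obtain ⟨z, hz⟩ := hA L
  obtain ⟨w, hw⟩ := hB L
  set j := 2 * L + p with hj
  have hLj := hL j (by omega)
  set θ := (1 / 2 : ℝ) ^ (s j + 1) with hθ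
  have hθ0 : 0 < θ := by positivity
  set x1 := tm j * A - z - θ with hx1
  set x2 := tm j * B - w with hx2
  have e1 := er_le j 4 (by norm_num)
  have e2 := er_le j 3 (by norm_num)
  have b1 : |x1| ≤ θ * (1 / 2) ^ j := hz.trans e1
  have b2 : |x2| ≤ θ * (1 / 2) ^ j := hw.trans e2
  have hθj : θ ≤ (1 / 2) ^ j := theta_le j
  have hp1 : (0 : ℝ) < (1 / 2) ^ j := by positivity
  have hp2 : (1 / 2 : ℝ) ^ j ≤ 1 := pow_le_one₀ (by norm_num) (by norm_num)
  have key : a * θ + (a * x1 + b * x2) = ((tm j : ℤ) * c - a * z - b * w : ℤ) := by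
    push_cast
    rw [← h, hx1, hx2]
    ring
  have hb : |a * x1 + b * x2| ≤ (|(a : ℝ)| + |(b : ℝ)|) * (θ * (1 / 2) ^ j) := by
    calc |a * x1 + b * x2| ≤ |a * x1| + |b * x2| := abs_add_le _ _
      _ = |(a : ℝ)| * |x1| + |(b : ℝ)| * |x2| := by rw [abs_mul, abs_mul]
      _ ≤ |(a : ℝ)| * (θ * (1 / 2) ^ j) + |(b : ℝ)| * (θ * (1 / 2) ^ j) := by gcongr
      _ = _ := by ring
  have h0 : a * θ + (a * x1 + b * x2) = 0 := by
    refine zero_of_int _ key ?_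
    calc |a * θ + (a * x1 + b * x2)| ≤ |a * θ| + |a * x1 + b * x2| := abs_add_le _ _
      _ ≤ |(a : ℝ)| * θ + (|(a : ℝ)| + |(b : ℝ)|) * (θ * (1 / 2) ^ j) := by
          rw [abs_mul, abs_of_pos hθ0]
          gcongr
      _ ≤ |(a : ℝ)| * (1 / 2) ^ j + (|(a : ℝ)| + |(b : ℝ)|) * (1 * (1 / 2) ^ j) := by
          gcongr
          exact hθj.trans hp2
      _ < 1 := by nlinarith
  by_contra ha
  have ha1 : (1 : ℝ) ≤ |(a : ℝ)| := by exact_mod_cast Int.one_le_abs ha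
  have h1 : |a * θ| = |a * x1 + b * x2| := by
    have : a * θ = -(a * x1 + b * x2) := by linarith
    rw [this, abs_neg]
  rw [abs_mul, abs_of_pos hθ0] at h1
  have h2 : |(a : ℝ)| * θ ≤ (|(a : ℝ)| + |(b : ℝ)|) * (θ * (1 / 2) ^ j) := h1.trans_le hb
  have h3 : |(a : ℝ)| ≤ (|(a : ℝ)| + |(b : ℝ)|) * (1 / 2) ^ j := by
    have : |(a : ℝ)| * θ ≤ ((|(a : ℝ)| + |(b : ℝ)|) * (1 / 2) ^ j) * θ := by
      rw [mul_assoc, mul_comm ((1 / 2 : ℝ) ^ j)]
      exact h2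
    exact le_of_mul_le_mul_right this hθ0
  nlinarith [abs_nonneg (b : ℝ)]

/-- `1`, `α`, `β` are rationally independent -/
theorem indep {a b c : ℤ} (h : a * α + b * β = c) : a = 0 ∧ b = 0 := by
  constructor
  · exact indep_aux (p := 0) (fun L => tm_α L) (fun L => tm_β L) h
  · refine indep_aux (p := 1) (A := β) (B := α) (fun L => tm_β' L) (fun L => tm_α' L)
      (b := a) (c := c) ?_
    rw [← h]
    ring

end Pool.Agent.K9h79.SE
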