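import Pool.Agent.K9h79.SE.Gen

/-!
# Rigidity times
-/

set_option autoImplicit false

open Filter Topology MeasureTheory

noncomputable section

namespace Pool.Agent.K9h79.SE

/-- the correlation of a character with its iterate -/
def J (x : ℕ → ℝ) (m : ℕ) : ℝ :=
  ∫ p : T2, Real.cos (2 * Real.pi * (m * β + Fn x m (p 0))) ∂(volume : Measure T2)

theorem J_int_cont (x : ℕ → ℝ) (m : ℕ) :
    Continuous fun p : T2 => Real.cos (2 * Real.pi * (m * β + Fn x m (p 0))) := by
  have h1 : Continuous fun p : T2 => ((x, p 0) : (ℕ → ℝ) × C1) :=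
    continuous_const.prodMk (cont_coord 0)
  have h2 := (Fn_cont m).comp h1
  simp only [Function.comp_def] at h2
  exact Real.continuous_cos.comp (continuous_const.mul (continuous_const.add h2))

theorem J_cont (m : ℕ) : Continuous fun x : ℕ → ℝ => J x m := by
  unfold J
  refine continuous_of_dominated (bound := fun _ => (1 : ℝ)) ?_ ?_ (integrable_const _) ?_
  · intro x
    exact (J_int_cont x m).aestronglyMeasurable
  · intro x
    exact Eventually.of_forall fun p => Real.abs_cos_le_one _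
  · refine Eventually.of_forall fun p => ?_
    have h1 : Continuous fun x : ℕ → ℝ => ((x, p 0) : (ℕ → ℝ) × C1) :=
      continuous_id.prodMk continuous_const
    have h2 := (Fn_cont m).comp h1
    simp only [Function.comp_def] at h2
    exact Real.continuous_cos.comp (continuous_const.mul (continuous_const.add h2))

/-- the parameters for which the cocycle is small at some of the given times -/
def Rg (n : ℕ → ℕ) (i0 : ℕ) : Set (ℕ → ℝ) :=
  ⋃ i : {i : ℕ // i0 ≤ i}, {y | ∀ u, |Fn y (n i.1) u| < 1 / ((i0 : ℝ) + 1)}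

theorem small_open (m : ℕ) {ε : ℝ} (hε : 0 < ε) :
    IsOpen {y : ℕ → ℝ | ∀ u, |Fn y m u| < ε} := by
  let Φ : C((ℕ → ℝ) × C1, ℝ) := ⟨fun p => Fn p.1 m p.2, Fn_cont m⟩
  have h1 : IsOpen {y : ℕ → ℝ | ‖Φ.curry y‖ < ε} :=
    isOpen_lt (Φ.curry.continuous.norm) continuous_const
  have h2 : {y : ℕ → ℝ | ∀ u, |Fn y m u| < ε} = {y : ℕ → ℝ | ‖Φ.curry y‖ < ε} := by
    ext y
    rw [Set.mem_ofPred_eq, Set.mem_ofPred_eq, ContinuousMap.norm_lt_iff _ hε]
    rfl
  rw [h2]
  exact h1

theorem Rg_residual {n : ℕ → ℕ} (hA : Tendsto (fun i => n i • A) atTop (𝓝 0)) (i0 : ℕ) :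
    Rg n i0 ∈ residual (ℕ → ℝ) := by
  have hε : (0 : ℝ) < 1 / ((i0 : ℝ) + 1) := by positivity
  refine residual_of_dense_open (isOpen_iUnion fun i => small_open _ hε) (fin_dense.mono ?_)
  rintro x ⟨K, hK⟩
  have hs := fin_summable hK
  have huc := CompactSpace.uniformContinuous_of_continuous (H_cont x 0 hs)
  obtain ⟨δ, hδ, h1⟩ := Metric.uniformContinuous_iff.1 huc _ hε
  obtain ⟨i, hi, hi0⟩ := ((Metric.tendsto_nhds.1 hA δ hδ).and (eventually_ge_atTop i0)).exists
  refine Set.mem_iUnion.2 ⟨⟨i, hi0⟩, fun u => ?_⟩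
  rw [Fn_eq x hs]
  have h2 : dist (u + n i • A) u < δ := by
    rw [dist_eq_norm, add_sub_cancel_left]
    rwa [dist_eq_norm, sub_zero] at hi
  have h3 := h1 h2
  rwa [Real.dist_eq] at h3

theorem norm_coe_le (r : ℝ) : ‖((r : ℝ) : C1)‖ ≤ |r| := by
  have h1 : ‖((r : ℝ) : C1)‖ = |r - round r| := UnitAddCircle.norm_eq
  rw [h1]
  have h2 := round_le r 0
  simpa using h2

/-- the maps are uniformly close to the identity at some of the given times -/
theorem rigid_times {n : ℕ → ℕ} (hA : Tendsto (fun i => n i • A) atTop (𝓝 0))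
    (hB : Tendsto (fun i => n i • B) atTop (𝓝 0)) {y : ℕ → ℝ} (hy : ∀ i0, y ∈ Rg n i0)
    {δ : ℝ} (hδ : 0 < δ) : ∃ i, ∀ p : T2, dist ((T y)^[n i] p) p < δ := by
  have h1 : ∀ᶠ i0 : ℕ in atTop, 1 / ((i0 : ℝ) + 1) < δ / 2 :=
    (tendsto_one_div_add_atTop_nhds_zero_nat).eventually (gt_mem_nhds (by positivity))
  have h2 := Metric.tendsto_nhds.1 hA δ hδ
  have h3 := Metric.tendsto_nhds.1 hB (δ / 2) (by positivity)
  obtain ⟨i0, h4, h5⟩ := (h1.and (eventually_forall_ge_atTop.2 (h2.and h3))).exists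
  obtain ⟨⟨i, hi⟩, h6⟩ := Set.mem_iUnion.1 (hy i0)
  refine ⟨i, fun p => ?_⟩
  obtain ⟨h7, h8⟩ := h5 i hi
  rw [T_iter]
  refine (dist_pi_lt_iff hδ).2 fun j => ?_
  fin_cases j
  · change dist (p 0 + n i • A) (p 0) < δ
    rw [dist_eq_norm, add_sub_cancel_left]
    rwa [dist_eq_norm, sub_zero] at h7
  · change dist (p 1 + (n i • B + ((Fn y (n i) (p 0) : ℝ) : C1))) (p 1) < δ
    rw [dist_eq_norm, add_sub_cancel_left]
    rw [dist_eq_norm, sub_zero] at h8
    have h9 : ‖((Fn y (n i) (p 0) : ℝ) : C1)‖ < δ / 2 :=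
      (norm_coe_le _).trans_lt ((h6 (p 0)).trans h4)
    exact (norm_add_le _ _).trans_lt (by linarith)

/-- small maps move an integrable function only a little -/
theorem l1_close {f : T2 → ℂ} (hf : Integrable f (volume : Measure T2)) {ε : ℝ} (hε : 0 < ε) :
    ∃ δ : ℝ, 0 < δ ∧ ∀ S : T2 → T2, MeasurePreserving S (volume : Measure T2) volume →
      (∀ p, dist (S p) p < δ) → ∫ p, ‖f (S p) - f p‖ ∂(volume : Measure T2) < ε := by
  obtain ⟨g, hg, hgi⟩ := hf.exists_boundedContinuous_integral_sub_le (ε := ε / 4) (by positivity)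
  have huc := CompactSpace.uniformContinuous_of_continuous g.continuous
  obtain ⟨δ, hδ, h1⟩ := Metric.uniformContinuous_iff.1 huc (ε / 4) (by positivity)
  refine ⟨δ, hδ, fun S hS hd => ?_⟩
  have hfg : Integrable (fun p => ‖f p - g p‖) (volume : Measure T2) := (hf.sub hgi).norm
  have hSfg : Integrable (fun p => ‖f (S p) - g (S p)‖) (volume : Measure T2) :=
    hS.integrable_comp_of_integrable hfg
  have e1 : ∫ p, ‖f (S p) - g (S p)‖ ∂(volume : Measure T2) =
      ∫ p, ‖f p - g p‖ ∂(volume : Measure T2) := by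
    have h2 := integral_map (μ := (volume : Measure T2)) hS.measurable.aemeasurable
      (f := fun p => ‖f p - g p‖) (by rw [hS.map_eq]; exact hfg.aestronglyMeasurable)
    rw [hS.map_eq] at h2
    exact h2.symm
  have h3 : ∫ p, ‖f (S p) - f p‖ ∂(volume : Measure T2) ≤
      ∫ p, (‖f (S p) - g (S p)‖ + (ε / 4 + ‖f p - g p‖)) ∂(volume : Measure T2) := by
    refine integral_mono_of_nonneg (Eventually.of_forall fun p => norm_nonneg _)
      (hSfg.add ((integrable_const _).add hfg)) (Eventually.of_forall fun p => ?_)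
    have h4 : ‖g (S p) - g p‖ ≤ ε / 4 := by
      rw [← dist_eq_norm]
      exact (h1 (hd p)).le
    have h5 : f (S p) - f p = (f (S p) - g (S p)) + (g (S p) - g p) + (g p - f p) := by ring
    simp only
    rw [h5]
    refine (norm_add₃_le).trans ?_
    rw [norm_sub_rev (g p) (f p)]
    linarith
  have h6 : ∫ p, (‖f (S p) - g (S p)‖ + (ε / 4 + ‖f p - g p‖)) ∂(volume : Measure T2) =
      ∫ p, ‖f (S p) - g (S p)‖ ∂(volume : Measure T2) +
        (ε / 4 + ∫ p, ‖f p - g p‖ ∂(volume : Measure T2)) := by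
    have i1 : Integrable (fun p : T2 => ε / 4 + ‖f p - g p‖) (volume : Measure T2) :=
      (integrable_const _).add hfg
    have e2 := integral_add hSfg i1
    have e3 := integral_add (integrable_const (ε / 4)) hfg
    rw [e2, e3]
    simp
  rw [h6, e1] at h3
  linarith

/-- the character of the fibre -/
def ch (p : T2) : ℂ := fourier 1 (p 1)

theorem ch_cont : Continuous ch := (fourier (T := 1) 1).continuous.comp (cont_coord 1)

theorem fourier_one_coe (r : ℝ) : fourier (T := 1) 1 ((r : ℝ) : C1) =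
    ((Real.cos (2 * Real.pi * r) : ℝ) : ℂ) + (Real.sin (2 * Real.pi * r) : ℝ) * Complex.I := by
  rw [fourier_coe_apply]
  have : (2 * Real.pi * Complex.I * ((1 : ℤ) : ℂ) * (r : ℂ) / ((1 : ℝ) : ℂ)) =
      ((2 * Real.pi * r : ℝ) : ℂ) * Complex.I := by
    push_cast
    ring
  rw [this, Complex.exp_mul_I, Complex.ofReal_cos, Complex.ofReal_sin]

theorem ch_iter (x : ℕ → ℝ) (m : ℕ) (p : T2) :
    1 - Real.cos (2 * Real.pi * (m * β + Fn x m (p 0))) ≤ ‖ch ((T x)^[m] p) - ch p‖ := by
  have h1 : ch ((T x)^[m] p) = ch p * fourier 1 (((m * β + Fn x m (p 0) : ℝ)) : C1) := by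
    rw [T_iter]
    unfold ch
    change fourier 1 (p 1 + (m • B + ((Fn x m (p 0) : ℝ) : C1))) = _
    rw [fourier_add'', AddCircle.coe_add]
    congr 3
    unfold B
    rw [← AddCircle.coe_nsmul, nsmul_eq_mul]
  have h2 : ch ((T x)^[m] p) - ch p =
      ch p * (fourier 1 (((m * β + Fn x m (p 0) : ℝ)) : C1) - 1) := by
    rw [h1]; ring
  rw [h2, norm_mul]
  have h3 : ‖ch p‖ = 1 := norm_fourier' 1 (p 1)
  rw [h3, one_mul, fourier_one_coe, ← norm_neg]
  refine le_trans ?_ (Complex.re_le_norm _)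
  simp only [Complex.neg_re, Complex.sub_re, Complex.add_re, Complex.ofReal_re, Complex.mul_re,
    Complex.I_re, Complex.ofReal_im, Complex.one_re, Complex.I_im]
  linarith

/-- isomorphic systems have common rigidity times -/
theorem J_of_isom {n : ℕ → ℕ} {x y : ℕ → ℝ} (h : Isom (T x) (T y))
    (hy : ∀ δ : ℝ, 0 < δ → ∃ i, ∀ p : T2, dist ((T y)^[n i] p) p < δ) :
    ∃ i, 1 / 2 < J x (n i) := by
  obtain ⟨φ, ψ, hφ, hψ, h1, h2, h3⟩ := h
  have hchi : Integrable ch (volume : Measure T2) :=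
    Integrable.of_bound ch_cont.aestronglyMeasurable 1
      (Eventually.of_forall fun p => (norm_fourier' 1 (p 1)).le)
  have hf : Integrable (ch ∘ ψ) (volume : Measure T2) := hψ.integrable_comp_of_integrable hchi
  obtain ⟨δ, hδ, h4⟩ := l1_close hf (ε := 1 / 2) (by norm_num)
  obtain ⟨i, hi⟩ := hy δ hδ
  refine ⟨i, ?_⟩
  set m := n i with hm
  have h5 := h4 _ ((measurePreserving_T y).iterate m) hi
  -- `φ ∘ (T x)^m = (T y)^m ∘ φ`
  have h6 : ∀ m : ℕ, φ ∘ (T x)^[m] =ᵐ[volume] (T y)^[m] ∘ φ := by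
    intro m
    induction m with
    | zero => exact ae_eq_refl _
    | succ m ih =>
      have e1 := ((measurePreserving_T x).iterate m).quasiMeasurePreserving.ae
        (p := fun p => (φ ∘ T x) p = (T y ∘ φ) p) h3
      filter_upwards [ih, e1] with p q1 q2
      simp only [Function.comp_apply] at q1 q2 ⊢
      rw [Function.iterate_succ_apply', Function.iterate_succ_apply', q2, q1]
  have h7 : ∫ p, ‖ch ((T x)^[m] p) - ch p‖ ∂(volume : Measure T2) =
      ∫ p, ‖(ch ∘ ψ) ((T y)^[m] p) - (ch ∘ ψ) p‖ ∂(volume : Measure T2) := by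
    have hmeas : AEStronglyMeasurable (fun p => ‖(ch ∘ ψ) ((T y)^[m] p) - (ch ∘ ψ) p‖)
        (volume : Measure T2) := by
      have hm1 : Measurable (ch ∘ ψ) := ch_cont.measurable.comp hψ.measurable
      exact ((hm1.comp ((measurePreserving_T y).measurable.iterate m)).sub
        hm1).norm.aestronglyMeasurable
    have e1 := integral_map (μ := (volume : Measure T2)) hφ.measurable.aemeasurable
      (f := fun p => ‖(ch ∘ ψ) ((T y)^[m] p) - (ch ∘ ψ) p‖) (by rw [hφ.map_eq]; exact hmeas)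
    rw [hφ.map_eq] at e1
    rw [e1]
    refine integral_congr_ae ?_
    have e2 := ((measurePreserving_T x).iterate m).quasiMeasurePreserving.ae
      (p := fun p => (ψ ∘ φ) p = id p) h1
    filter_upwards [h6 m, h1, e2] with p q1 q2 q3
    simp only [Function.comp_apply, id] at q1 q2 q3 ⊢
    rw [← q1, q2, q3]
  rw [← h7] at h5
  have hch2 : Measurable fun p => ch ((T x)^[m] p) - ch p :=
    (ch_cont.measurable.comp ((measurePreserving_T x).measurable.iterate m)).sub
      ch_cont.measurable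
  have h8 : 1 - J x m ≤ ∫ p, ‖ch ((T x)^[m] p) - ch p‖ ∂(volume : Measure T2) := by
    have hJ : Integrable (fun p : T2 => Real.cos (2 * Real.pi * (m * β + Fn x m (p 0))))
        (volume : Measure T2) :=
      Integrable.of_bound (J_int_cont x m).aestronglyMeasurable 1
        (Eventually.of_forall fun p => Real.abs_cos_le_one _)
    have e1 : 1 - J x m =
        ∫ p : T2, (1 - Real.cos (2 * Real.pi * (m * β + Fn x m (p 0)))) ∂(volume : Measure T2) := by
      rw [integral_sub (integrable_const _) hJ]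
      simp [J]
    rw [e1]
    refine integral_mono ((integrable_const _).sub hJ) ?_ (fun p => ch_iter x m p)
    refine Integrable.of_bound hch2.norm.aestronglyMeasurable 2 (Eventually.of_forall fun p => ?_)
    rw [norm_norm]
    refine (norm_sub_le _ _).trans ?_
    have e2 : ∀ q, ‖ch q‖ = 1 := fun q => norm_fourier' 1 (q 1)
    rw [e2, e2]
    norm_num
  linarith

end Pool.Agent.K9h79.SE
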