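import Pool.Agent.K9h79.SE.Torus
import Pool.Agent.K9h79.SE.Fun

/-!
# The skew products
-/

set_option autoImplicit false

open Filter Topology MeasureTheory
open scoped Manifold ContDiff

noncomputable section

namespace Pool.Agent.K9h79.SE

/-- a skew product of the torus -/
def sk (a : C1) (G : C1 → C1) (p : T2) : T2 := ![p 0 + a, p 1 + G (p 0)]

theorem sk_zero (a : C1) (G : C1 → C1) (p : T2) : sk a G p 0 = p 0 + a := rfl
theorem sk_one (a : C1) (G : C1 → C1) (p : T2) : sk a G p 1 = p 1 + G (p 0) := rfl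

theorem T2_ext {p q : T2} (h0 : p 0 = q 0) (h1 : p 1 = q 1) : p = q := by
  funext i
  fin_cases i
  · exact h0
  · exact h1

theorem sk_sk (a b : C1) (G K : C1 → C1) (p : T2) :
    sk a G (sk b K p) = sk (b + a) (fun u => K u + G (u + b)) p := by
  refine T2_ext ?_ ?_
  · simp only [sk_zero]; abel
  · simp only [sk_one, sk_zero]; abel

theorem sk_id (G : C1 → C1) (hG : ∀ u, G u = 0) (p : T2) : sk 0 G p = p := by
  refine T2_ext ?_ ?_
  · simp only [sk_zero, add_zero]
  · simp only [sk_one, hG, add_zero]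

theorem measurePreserving_sk (a : C1) (G : C1 → C1) (hG : Measurable G) :
    MeasurePreserving (sk a G) (volume : Measure T2) volume := by
  have h1 := volume_preserving_finTwoArrow C1
  have h2 : MeasurePreserving (fun q : C1 × C1 => (q.1 + a, q.2 + G q.1))
      ((volume : Measure C1).prod volume) ((volume : Measure C1).prod volume) := by
    refine MeasurePreserving.skew_product (f := fun u : C1 => u + a)
      (g := fun u v => v + G u) (measurePreserving_add_right volume a) ?_ ?_
    · exact measurable_snd.add (hG.comp measurable_fst)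
    · refine Eventually.of_forall fun u => ?_
      exact (measurePreserving_add_right volume (G u)).map_eq
  have h3 := (h1.symm).comp (h2.comp h1)
  exact h3

/-- the skew product of a cocycle -/
def T (x : ℕ → ℝ) : T2 → T2 := sk A (fun u => B + ((F x u : ℝ) : C1))

/-- the inverse of the skew product -/
def Ti (x : ℕ → ℝ) : T2 → T2 := sk (-A) (fun u => -(B + ((F x (u + -A) : ℝ) : C1)))

theorem Ti_T (x : ℕ → ℝ) (p : T2) : Ti x (T x p) = p := by
  unfold T Ti
  rw [sk_sk, add_neg_cancel]
  apply sk_id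
  intro u
  rw [add_assoc u, add_neg_cancel, add_zero, add_neg_cancel]

theorem T_Ti (x : ℕ → ℝ) (p : T2) : T x (Ti x p) = p := by
  unfold T Ti
  rw [sk_sk, neg_add_cancel]
  apply sk_id
  intro u
  rw [neg_add_cancel]

theorem coe_cont : Continuous ((↑) : ℝ → C1) := AddCircle.continuous_mk' 1

theorem measurePreserving_T (x : ℕ → ℝ) :
    MeasurePreserving (T x) (volume : Measure T2) volume :=
  measurePreserving_sk _ _ (continuous_const.add (coe_cont.comp (F_cont' x))).measurable

theorem T_smooth (x : ℕ → ℝ) : ContMDiff (𝓡 2) (𝓡 2) ∞ (T x) := by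
  refine contMDiff_of_lift _
    (fun z => WithLp.toLp 2 ![z 0 + α, z 1 + (β + F x ((z 0 : ℝ) : C1))]) ?_ ?_
  · rw [contDiff_euclidean]
    intro i
    have h0 : ContDiff ℝ ∞ fun z : E2 => z 0 := by fun_prop
    have h1 : ContDiff ℝ ∞ fun z : E2 => z 1 := by fun_prop
    fin_cases i
    · exact h0.add contDiff_const
    · exact h1.add (contDiff_const.add ((F_smooth x).comp h0))
  · intro z
    refine T2_ext ?_ ?_
    · change ((z 0 : ℝ) : C1) + (α : C1) = ((z 0 + α : ℝ) : C1)
      rw [AddCircle.coe_add]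
    · change ((z 1 : ℝ) : C1) + ((β : C1) + ((F x ((z 0 : ℝ) : C1) : ℝ) : C1)) =
        ((z 1 + (β + F x ((z 0 : ℝ) : C1)) : ℝ) : C1)
      rw [AddCircle.coe_add, AddCircle.coe_add]

theorem Ti_smooth (x : ℕ → ℝ) : ContMDiff (𝓡 2) (𝓡 2) ∞ (Ti x) := by
  refine contMDiff_of_lift _
    (fun z => WithLp.toLp 2 ![z 0 + -α, z 1 + -(β + F x ((z 0 + -α : ℝ) : C1))]) ?_ ?_
  · rw [contDiff_euclidean]
    intro i
    have h0 : ContDiff ℝ ∞ fun z : E2 => z 0 := by fun_prop
    have h1 : ContDiff ℝ ∞ fun z : E2 => z 1 := by fun_prop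
    have h2 : ContDiff ℝ ∞ fun z : E2 => z 0 + -α := h0.add contDiff_const
    fin_cases i
    · exact h2
    · exact h1.add (contDiff_const.add ((F_smooth x).comp h2)).neg
  · intro z
    refine T2_ext ?_ ?_
    · change ((z 0 : ℝ) : C1) + -(α : C1) = ((z 0 + -α : ℝ) : C1)
      rw [AddCircle.coe_add, AddCircle.coe_neg]
    · change ((z 1 : ℝ) : C1) + -((β : C1) + ((F x (((z 0 : ℝ) : C1) + -(α : C1)) : ℝ) : C1)) =
        ((z 1 + -(β + F x ((z 0 + -α : ℝ) : C1)) : ℝ) : C1)
      rw [AddCircle.coe_add (1 : ℝ) (z 1), AddCircle.coe_neg, AddCircle.coe_add,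
        AddCircle.coe_add, AddCircle.coe_neg]

/-- the skew product as a diffeomorphism -/
def Td (x : ℕ → ℝ) : Diffeomorph (𝓡 2) (𝓡 2) T2 T2 ∞ where
  toFun := T x
  invFun := Ti x
  left_inv := Ti_T x
  right_inv := T_Ti x
  contMDiff_toFun := T_smooth x
  contMDiff_invFun := Ti_smooth x

/-- measure isomorphism -/
def Isom (S T : T2 → T2) : Prop :=
  ∃ φ ψ : T2 → T2, MeasurePreserving φ (volume : Measure T2) volume ∧
    MeasurePreserving ψ (volume : Measure T2) volume ∧
    ψ ∘ φ =ᵐ[volume] id ∧ φ ∘ ψ =ᵐ[volume] id ∧ φ ∘ S =ᵐ[volume] T ∘ φ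

theorem isom_of_summable (x y : ℕ → ℝ) (h : Summable fun n => |x n - y n|) :
    Isom (T x) (T y) := by
  have hH := H_cont x y h
  refine ⟨sk 0 (fun u => ((-(H x y u) : ℝ) : C1)), sk 0 (fun u => ((H x y u : ℝ) : C1)),
    measurePreserving_sk _ _ (coe_cont.comp hH.neg).measurable,
    measurePreserving_sk _ _ (coe_cont.comp hH).measurable, ?_, ?_, ?_⟩
  · refine Eventually.of_forall fun p => ?_
    change sk _ _ (sk _ _ p) = p
    rw [sk_sk, add_zero]
    apply sk_id
    intro u
    rw [add_zero, AddCircle.coe_neg, neg_add_cancel]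
  · refine Eventually.of_forall fun p => ?_
    change sk _ _ (sk _ _ p) = p
    rw [sk_sk, add_zero]
    apply sk_id
    intro u
    rw [add_zero, AddCircle.coe_neg, add_neg_cancel]
  · refine Eventually.of_forall fun p => ?_
    rw [Function.comp_apply, Function.comp_apply]
    unfold T
    rw [sk_sk, sk_sk, add_zero, zero_add]
    have : (fun u => B + ((F x u : ℝ) : C1) + ((-(H x y (u + A)) : ℝ) : C1)) =
        fun u => ((-(H x y u) : ℝ) : C1) + (B + ((F y (u + 0) : ℝ) : C1)) := by
      funext u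
      have h1 := F_sub x y h u
      have h2 : F x u = F y u + H x y (u + A) - H x y u := by linarith
      rw [h2, add_zero]
      have h3 : ((F y u + H x y (u + A) - H x y u : ℝ) : C1) =
        ((F y u : ℝ) : C1) + ((H x y (u + A) : ℝ) : C1) - ((H x y u : ℝ) : C1) := by
        rw [AddCircle.coe_sub, AddCircle.coe_add]
      rw [h3, AddCircle.coe_neg, AddCircle.coe_neg]
      abel
    rw [this]

/-- the ergodic sums of the cocycle -/
def Fn (x : ℕ → ℝ) (n : ℕ) (u : C1) : ℝ := ∑ i ∈ Finset.range n, F x (u + i • A)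

theorem T_iter (x : ℕ → ℝ) (n : ℕ) (p : T2) :
    (T x)^[n] p = sk (n • A) (fun u => n • B + ((Fn x n u : ℝ) : C1)) p := by
  induction n with
  | zero =>
    rw [Function.iterate_zero, id, zero_smul]
    refine (sk_id _ (fun u => ?_) p).symm
    unfold Fn
    simp
  | succ n ih =>
    rw [Function.iterate_succ_apply', ih]
    unfold T
    rw [sk_sk, ← succ_nsmul]
    congr 1
    funext u
    have : Fn x (n + 1) u = Fn x n u + F x (u + n • A) := by
      unfold Fn
      rw [Finset.sum_range_succ]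
    rw [this, AddCircle.coe_add, succ_nsmul]
    abel

theorem Fn_cont (n : ℕ) : Continuous fun p : (ℕ → ℝ) × C1 => Fn p.1 n p.2 := by
  unfold Fn
  refine continuous_finsetSum _ fun i _ => ?_
  have h : Continuous fun p : (ℕ → ℝ) × C1 => ((p.1, p.2 + i • A) : (ℕ → ℝ) × C1) := by
    fun_prop
  have h2 := F_cont.comp h
  simp only [Function.comp_def] at h2
  exact h2

theorem Fn_eq (x : ℕ → ℝ) (h : Summable fun n => |x n - (0 : ℕ → ℝ) n|) (n : ℕ) (u : C1) :
    Fn x n u = H x 0 (u + n • A) - H x 0 u := by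
  induction n with
  | zero => unfold Fn; simp
  | succ n ih =>
    have : Fn x (n + 1) u = Fn x n u + F x (u + n • A) := by
      unfold Fn
      rw [Finset.sum_range_succ]
    rw [this, ih]
    have h1 := F_sub x 0 h (u + n • A)
    rw [F_zero, sub_zero] at h1
    rw [h1, succ_nsmul, ← add_assoc]
    ring

end Pool.Agent.K9h79.SE
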