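import Mathlib

/-!
# The torus `T2 = (ℝ/ℤ)²` as a smooth manifold with its Haar measure

(The construction of the charts is the one of `Pool.Agent.Helper449.RC.Torus2`.)
-/

set_option autoImplicit false

open scoped Manifold ContDiff Topology
open Metric Set MeasureTheory

noncomputable section

namespace Pool.Agent.K9h79.SE

/-- the euclidean plane -/
abbrev E2 : Type := EuclideanSpace ℝ (Fin 2)

/-- The two-dimensional torus. -/
def T2 : Type := Fin 2 → AddCircle (1 : ℝ)

instance : TopologicalSpace T2 := inferInstanceAs (TopologicalSpace (Fin 2 → AddCircle (1 : ℝ)))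
instance : CompactSpace T2 := inferInstanceAs (CompactSpace (Fin 2 → AddCircle (1 : ℝ)))
instance : T2Space T2 := inferInstanceAs (T2Space (Fin 2 → AddCircle (1 : ℝ)))
instance : ConnectedSpace T2 := inferInstanceAs (ConnectedSpace (Fin 2 → AddCircle (1 : ℝ)))
instance : SecondCountableTopology T2 :=
  inferInstanceAs (SecondCountableTopology (Fin 2 → AddCircle (1 : ℝ)))
instance : MeasurableSpace T2 := inferInstanceAs (MeasurableSpace (Fin 2 → AddCircle (1 : ℝ)))
instance : BorelSpace T2 := inferInstanceAs (BorelSpace (Fin 2 → AddCircle (1 : ℝ)))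
instance : PseudoMetricSpace T2 :=
  inferInstanceAs (PseudoMetricSpace (Fin 2 → AddCircle (1 : ℝ)))
instance : AddCommGroup T2 := inferInstanceAs (AddCommGroup (Fin 2 → AddCircle (1 : ℝ)))
instance : IsTopologicalAddGroup T2 :=
  inferInstanceAs (IsTopologicalAddGroup (Fin 2 → AddCircle (1 : ℝ)))
instance : MeasureSpace T2 := inferInstanceAs (MeasureSpace (Fin 2 → AddCircle (1 : ℝ)))

instance instProb1 : IsProbabilityMeasure (volume : Measure (AddCircle (1 : ℝ))) :=
  ⟨by rw [AddCircle.measure_univ, ENNReal.ofReal_one]⟩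

instance : IsProbabilityMeasure (volume : Measure T2) :=
  inferInstanceAs (IsProbabilityMeasure (volume : Measure (Fin 2 → AddCircle (1 : ℝ))))

/-- The projection `E2 → T2`. -/
def toT2 (x : E2) : T2 := fun i => ((x i : ℝ) : AddCircle (1 : ℝ))

/-- The restriction of the projection `E2 → T2` to the open square of side `1` centred at `a`. -/
def cubeT2 (a : E2) : OpenPartialHomeomorph E2 T2 :=
  (PiLp.homeomorph 2 (fun _ : Fin 2 => ℝ)).toOpenPartialHomeomorph.trans
    (OpenPartialHomeomorph.pi fun i : Fin 2 =>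
      AddCircle.openPartialHomeomorphCoe (1 : ℝ) (a i - 1 / 2))

/-- A lift of a point of `T2` to `E2`. -/
def liftT2 (p : T2) : E2 := WithLp.toLp 2 fun i => ((AddCircle.equivIco (1 : ℝ) 0 (p i) : ℝ))

theorem toT2_liftT2 (p : T2) : toT2 (liftT2 p) = p := by
  funext i
  exact (AddCircle.equivIco (1 : ℝ) 0).symm_apply_apply (p i)

theorem cubeT2_apply (a x : E2) : cubeT2 a x = toT2 x := rfl

theorem cubeT2_source (a : E2) :
    (cubeT2 a).source = {x | ∀ i, a i - 1 / 2 < x i ∧ x i < a i - 1 / 2 + 1} := by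
  ext x
  constructor
  · rintro ⟨-, h⟩ i
    exact h i trivial
  · intro h
    exact ⟨trivial, fun i _ => h i⟩

/-- The smooth structure of the torus: the charts are the local inverses of `E2 → T2`. -/
instance : ChartedSpace E2 T2 where
  atlas := {e | ∃ a : E2, e = (cubeT2 a).symm}
  chartAt p := (cubeT2 (liftT2 p)).symm
  mem_chart_source p := by
    have h : liftT2 p ∈ (cubeT2 (liftT2 p)).source := by
      rw [cubeT2_source]; intro i; constructor <;> linarith
    have := (cubeT2 (liftT2 p)).map_source h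
    rw [cubeT2_apply, toT2_liftT2] at this
    exact this
  chart_mem_atlas p := ⟨_, rfl⟩

/-- Near a point `x` the chart at `p₀` composed with the projection is a translation. -/
theorem chartT2_comp_toT2 (a x : E2) (hx : toT2 x ∈ (cubeT2 a).target) :
    ∃ n : E2, ∀ᶠ y in 𝓝 x, (cubeT2 a).symm (toT2 y) = y + n := by
  set z : E2 := (cubeT2 a).symm (toT2 x) with hz
  have hzs : z ∈ (cubeT2 a).source := (cubeT2 a).map_target hx
  have hzx : toT2 z = toT2 x := by
    rw [← cubeT2_apply a z]
    exact (cubeT2 a).right_inv hx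
  refine ⟨z - x, ?_⟩
  have hcont : Continuous fun y : E2 => y + (z - x) := continuous_id.add continuous_const
  have hmem : (fun y : E2 => y + (z - x)) x ∈ (cubeT2 a).source := by
    have : x + (z - x) = z := by abel
    change x + (z - x) ∈ (cubeT2 a).source
    rw [this]
    exact hzs
  have hev : ∀ᶠ y in 𝓝 x, y + (z - x) ∈ (cubeT2 a).source :=
    hcont.continuousAt.preimage_mem_nhds ((cubeT2 a).open_source.mem_nhds hmem)
  filter_upwards [hev] with y hy
  have hyt : toT2 y = toT2 (y + (z - x)) := by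
    funext i
    have hi : ((z i : ℝ) : AddCircle (1 : ℝ)) = ((x i : ℝ) : AddCircle (1 : ℝ)) := congrFun hzx i
    change ((y i : ℝ) : AddCircle (1 : ℝ)) = (((y + (z - x)) i : ℝ) : AddCircle (1 : ℝ))
    have : (y + (z - x)) i = y i + (z i - x i) := rfl
    rw [this, AddCircle.coe_add, AddCircle.coe_sub, hi, sub_self, add_zero]
  rw [hyt, ← cubeT2_apply a]
  exact (cubeT2 a).left_inv hy

instance : IsManifold (𝓡 2) ∞ T2 := by
  apply isManifold_of_contDiffOn
  rintro e e' ⟨a, rfl⟩ ⟨b, rfl⟩
  intro x hx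
  have hx1 : x ∈ ((cubeT2 a).symm.symm ≫ₕ (cubeT2 b).symm).source := hx.1
  have hx2 : toT2 x ∈ (cubeT2 b).target := by
    have h1 := hx1.2
    exact h1
  obtain ⟨n, hn⟩ := chartT2_comp_toT2 b x hx2
  have h2 : ContDiffAt ℝ ∞ (fun y : E2 => y + n) x := contDiffAt_id.add contDiffAt_const
  have h3 : ContDiffAt ℝ ∞ (fun y : E2 => (cubeT2 b).symm (toT2 y)) x :=
    h2.congr_of_eventuallyEq hn
  exact h3.contDiffWithinAt

theorem contMDiff_toT2 : ContMDiff (𝓡 2) (𝓡 2) ∞ toT2 := by
  intro x
  have hmem : (cubeT2 x).symm ∈ atlas E2 T2 := ⟨x, rfl⟩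
  have hmax : (cubeT2 x).symm ∈ IsManifold.maximalAtlas (𝓡 2) ∞ T2 :=
    IsManifold.subset_maximalAtlas hmem
  have h1 := contMDiffOn_symm_of_mem_maximalAtlas hmax
  have hxs : x ∈ (cubeT2 x).source := by
    rw [cubeT2_source]; intro i; constructor <;> linarith
  exact h1.contMDiffAt ((cubeT2 x).open_source.mem_nhds hxs)

/-- a map of the torus with a smooth lift is smooth -/
theorem contMDiff_of_lift (Φ : T2 → T2) (Φ' : E2 → E2) (h : ContDiff ℝ ∞ Φ')
    (hc : ∀ x, Φ (toT2 x) = toT2 (Φ' x)) : ContMDiff (𝓡 2) (𝓡 2) ∞ Φ := by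
  intro p
  set y : E2 := liftT2 p with hy
  have hmem : (cubeT2 y).symm ∈ atlas E2 T2 := ⟨y, rfl⟩
  have hmax : (cubeT2 y).symm ∈ IsManifold.maximalAtlas (𝓡 2) ∞ T2 :=
    IsManifold.subset_maximalAtlas hmem
  have h1 := contMDiffOn_of_mem_maximalAtlas hmax
  have hys : y ∈ (cubeT2 y).source := by
    rw [cubeT2_source]; intro i; constructor <;> linarith
  have hpt : p ∈ (cubeT2 y).target := by
    have := (cubeT2 y).map_source hys
    rwa [cubeT2_apply, hy, toT2_liftT2] at this
  have h2 : ContMDiffAt (𝓡 2) (𝓡 2) ∞ (cubeT2 y).symm p :=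
    h1.contMDiffAt ((cubeT2 y).open_target.mem_nhds hpt)
  have h3 : ContMDiffAt (𝓡 2) (𝓡 2) ∞ (fun q => toT2 (Φ' ((cubeT2 y).symm q))) p := by
    have h4 : ContMDiff (𝓡 2) (𝓡 2) ∞ (fun z => toT2 (Φ' z)) :=
      contMDiff_toT2.comp h.contMDiff
    exact h4.contMDiffAt.comp p h2
  refine h3.congr_of_eventuallyEq ?_
  filter_upwards [(cubeT2 y).open_target.mem_nhds hpt] with q hq
  have h5 : toT2 ((cubeT2 y).symm q) = q := by
    rw [← cubeT2_apply y]
    exact (cubeT2 y).right_inv hq
  rw [← hc, h5]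

theorem measurePreserving_toT2 (a : E2) :
    MeasurePreserving toT2 ((volume : Measure E2).restrict (cubeT2 a).source)
      (volume : Measure T2) := by
  have h1 : ∀ i : Fin 2, MeasurePreserving ((↑) : ℝ → AddCircle (1 : ℝ))
      (volume.restrict (Ioo (a i - 1 / 2) (a i - 1 / 2 + 1))) volume := by
    intro i
    have h := AddCircle.measurePreserving_mk (1 : ℝ) (a i - 1 / 2)
    rwa [← Measure.restrict_congr_set (Ioo_ae_eq_Ioc (μ := (volume : Measure ℝ)))] at h
  have h2 := measurePreserving_pi (fun i : Fin 2 =>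
    (volume : Measure ℝ).restrict (Ioo (a i - 1 / 2) (a i - 1 / 2 + 1)))
    (fun _ : Fin 2 => (volume : Measure (AddCircle (1 : ℝ)))) h1
  rw [← Measure.restrict_pi_pi] at h2
  have h3 := (PiLp.volume_preserving_ofLp (Fin 2)).restrict_preimage
    (s := Set.univ.pi fun i : Fin 2 => Ioo (a i - 1 / 2) (a i - 1 / 2 + 1))
    (MeasurableSet.univ_pi fun i => measurableSet_Ioo)
  have h4 : (cubeT2 a).source = (WithLp.ofLp ⁻¹'
      (Set.univ.pi fun i : Fin 2 => Ioo (a i - 1 / 2) (a i - 1 / 2 + 1)) : Set E2) := by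
    rw [cubeT2_source]
    ext x
    simp only [mem_ofPred_eq, mem_preimage, mem_pi, mem_univ, forall_true_left, mem_Ioo]
  rw [h4]
  exact h2.comp h3

theorem chart_volume : ∀ e ∈ atlas (EuclideanSpace ℝ (Fin 2)) T2,
    ∃ ρ : EuclideanSpace ℝ (Fin 2) → ℝ,
        ContDiffOn ℝ ∞ ρ e.target ∧ (∀ y ∈ e.target, 0 < ρ y) ∧
        Measure.map (⇑e) ((volume : Measure T2).restrict e.source) =
          (volume.withDensity (fun y => ENNReal.ofReal (ρ y))).restrict e.target := by
  rintro e ⟨a, rfl⟩
  refine ⟨fun _ => 1, contDiffOn_const, fun _ _ => one_pos, ?_⟩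
  have h0 : (fun _ : E2 => ENNReal.ofReal (1 : ℝ)) = 1 := by
    funext x
    simp
  rw [h0, withDensity_one]
  change Measure.map (cubeT2 a).symm ((volume : Measure T2).restrict (cubeT2 a).target) =
    (volume : Measure E2).restrict (cubeT2 a).source
  have h1 := measurePreserving_toT2 a
  have hsrc : MeasurableSet (cubeT2 a).source := (cubeT2 a).open_source.measurableSet
  have htgt : MeasurableSet (cubeT2 a).target := (cubeT2 a).open_target.measurableSet
  have h2 : (volume : Measure T2).restrict (cubeT2 a).target =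
      Measure.map toT2 ((volume : Measure E2).restrict (cubeT2 a).source) := by
    have h3 := h1.restrict_preimage htgt
    rw [Measure.restrict_restrict (h1.measurable htgt)] at h3
    have h4 : toT2 ⁻¹' (cubeT2 a).target ∩ (cubeT2 a).source = (cubeT2 a).source := by
      apply inter_eq_right.2
      intro x hx
      exact (cubeT2 a).map_source hx
    rw [h4] at h3
    exact h3.map_eq.symm
  have hm : Measurable (toT2) := h1.measurable
  have hcs : AEMeasurable (cubeT2 a).symm ((volume : Measure T2).restrict (cubeT2 a).target) :=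
    ((cubeT2 a).symm.continuousOn.aemeasurable htgt)
  rw [h2] at hcs ⊢
  rw [AEMeasurable.map_map_of_aemeasurable hcs hm.aemeasurable]
  have h3 : (cubeT2 a).symm ∘ toT2 =ᵐ[(volume : Measure E2).restrict (cubeT2 a).source] id := by
    filter_upwards [ae_restrict_mem hsrc] with x hx
    exact (cubeT2 a).left_inv hx
  rw [Measure.map_congr h3, Measure.map_id]

end Pool.Agent.K9h79.SE
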